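import Pool.Agent.ICB.HALF

set_option autoImplicit false

open MeasureTheory Measure

namespace Pool.Agent.ICB

/-- All the cones have volumes of the same sign. -/
theorem abs_sum (hS : StSGN) (hC : StCON) {P : Set E3} {w : Fin 12 → E3} {o : E3} (hP : IsIco P w)
    (ho : o ∈ interior P) (s : Finset (Fin 20)) :
    ∑ f ∈ s, |dt o w f| = |∑ f ∈ s, dt o w f| := by
  have h := hC (dt o w) (fun f g a b h1 h2 => hS P w o hP ho f g a b h1 h2)
  rcases lt_trichotomy (dt o w 0) 0 with h0 | h0 | h0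
  · have h1 : ∀ f, dt o w f < 0 := fun f => by
      by_contra hf
      push Not at hf
      exact absurd (h f) (not_lt.2 (mul_nonpos_of_nonpos_of_nonneg h0.le hf))
    rw [abs_of_nonpos (Finset.sum_nonpos fun f _ => (h1 f).le), ← Finset.sum_neg_distrib]
    exact Finset.sum_congr rfl fun f _ => abs_of_neg (h1 f)
  · exfalso
    have := h 0
    rw [h0, zero_mul] at this
    exact lt_irrefl _ this
  · have h1 : ∀ f, 0 < dt o w f := fun f => (mul_pos_iff_of_pos_left h0).1 (h f)
    rw [abs_of_nonneg (Finset.sum_nonneg fun f _ => (h1 f).le)]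
    exact Finset.sum_congr rfl fun f _ => abs_of_pos (h1 f)

theorem t_ABS (hS : StSGN) (hC : StCON) (hU : StSUM) : StABS := by
  intro P w o hP ho
  rw [← abs_of_pos (show (0 : ℝ) < 6 by norm_num), ← abs_mul, ← hU w o]
  exact abs_sum hS hC hP ho _

/-- The bridge, with the volumes of the parts over the triangles touching a given one. -/
def StBRG2 : Prop :=
  ∃ κ τ : ENNReal, κ ≠ 0 ∧ κ ≠ ⊤ ∧ τ ≠ 0 ∧ τ ≠ ⊤ ∧ ∀ (P : Set E3) (w : Fin 12 → E3),
    IsIco P w → (interior P).Nonempty →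
      μH[2] (frontier P) = ENNReal.ofReal (area w) * κ ∧
        volume P = ENNReal.ofReal |vol w| * τ ∧
        ∀ c ∈ interior P, ∀ g, volume (partOver P c (face w g)) =
          ENNReal.ofReal |∑ f with Touch g f, dt c w f / 6| * τ

theorem t_BRG2 (hS : StSGN) (hCo : StCON) (hU : StSUM) (hT : StTET) (hC : StCONE) (hH : StHTR)
    (hF : StFRM) (hFR : StFRT) (hN : StNUL) (hI : StINT) (hG : StGEN) : StBRG2 := by
  have hA : StABS := t_ABS hS hCo hU
  obtain ⟨τ, t0, t1, ht⟩ := hT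
  obtain ⟨κ, k0, k1, hk⟩ := hH
  have e : ∀ (w : Fin 12 → E3) (o : E3) (f : Fin 20),
      volume (convexHull ℝ ({o, w (tri f 0), w (tri f 1), w (tri f 2)} : Set E3)) =
        ENNReal.ofReal |dt o w f| * τ := fun w o f => ht (fun i => w (tri f i)) o
  have h6 : ENNReal.ofReal 6 = 6 := by norm_num
  refine ⟨κ, 6 * τ, k0, k1, ?_, ?_, ?_⟩
  · exact mul_ne_zero (by norm_num) t0
  · exact ENNReal.mul_ne_top (by norm_num) t1
  intro P w hP hi
  refine ⟨?_, ?_, ?_⟩
  · rw [hF P w hP hi, area, ENNReal.ofReal_sum_of_nonneg, Finset.sum_mul]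
    · exact Finset.sum_congr rfl fun f _ => hk _ _ _
    · intro f _
      unfold triArea
      positivity
  · obtain ⟨o, ho⟩ := hi
    rw [hC P w o hP ho, Finset.sum_congr rfl fun f _ => e w o f, ← Finset.sum_mul,
      ← ENNReal.ofReal_sum_of_nonneg (fun f _ => abs_nonneg _), hA P w o hP ho,
      ENNReal.ofReal_mul (by norm_num), h6]
    ring
  · intro c hc g
    rw [hP.volume_partOver hFR hN hI hG hc g, Finset.sum_congr rfl fun f _ => e w c f,
      ← Finset.sum_mul, ← ENNReal.ofReal_sum_of_nonneg (fun f _ => abs_nonneg _),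
      abs_sum hS hCo hP hc]
    have h7 : |∑ f with Touch g f, dt c w f| = 6 * |∑ f with Touch g f, dt c w f / 6| := by
      rw [← Finset.sum_div, abs_div, abs_of_pos (show (0 : ℝ) < 6 by norm_num)]
      ring
    rw [h7, ENNReal.ofReal_mul (by norm_num), h6]
    ring

theorem t_BRG (h : StBRG2) : StBRG := by
  obtain ⟨κ, τ, a, b, c, d, e⟩ := h
  exact ⟨κ, τ, a, b, c, d, fun P w h1 h2 => ⟨(e P w h1 h2).1, (e P w h1 h2).2.1⟩⟩

end Pool.Agent.ICB
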