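import Pool.Agent.ICB.St

set_option autoImplicit false

namespace Pool.Agent.ICB

/-- Table of parents. -/
def par : Fin 20 → Fin 20 := ![0, 9, 5, 7, 0, 4, 0, 6, 0, 8, 18, 6, 8, 4, 3, 12, 17, 13, 2, 11]

/-- Table of depths. -/
def dep : Fin 20 → ℕ := ![0, 3, 3, 3, 1, 2, 1, 2, 1, 2, 5, 2, 2, 2, 4, 3, 4, 3, 4, 3]

lemma par_spec : ∀ f : Fin 20, f ≠ 0 → dep (par f) < dep f ∧
    ∃ a b : Fin 3, tri (par f) a = tri f (b + 1) ∧ tri (par f) (a + 1) = tri f b := by
  decide

theorem t_CON : StCON := by
  intro s hs
  have h0 : 0 < s 0 * s 0 := by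
    have h4 : 0 < s 0 * s 4 := by
      obtain ⟨_, a, b, h1, h2⟩ := par_spec 4 (by decide)
      exact hs 0 4 a b h1 h2
    have : s 0 ≠ 0 := by
      intro h
      rw [h, zero_mul] at h4
      exact lt_irrefl _ h4
    exact mul_self_pos.2 this
  have key : ∀ n : ℕ, ∀ f : Fin 20, dep f ≤ n → 0 < s 0 * s f := by
    intro n
    induction n with
    | zero =>
      intro f hf
      by_cases hf0 : f = 0
      · rw [hf0]
        exact h0
      · have := (par_spec f hf0).1
        omega
    | succ n ih =>
      intro f hf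
      by_cases hf0 : f = 0
      · rw [hf0]
        exact h0
      · obtain ⟨hd, a, b, h1, h2⟩ := par_spec f hf0
        have h3 := ih (par f) (by omega)
        have h4 := hs (par f) f a b h1 h2
        have h5 : 0 < (s 0 * s (par f)) * (s (par f) * s f) := mul_pos h3 h4
        have h6 : 0 < s (par f) ^ 2 := by
          have : s (par f) ≠ 0 := by
            intro h
            rw [h, mul_zero] at h3
            exact lt_irrefl _ h3
          positivity
        have h7 : (s 0 * s (par f)) * (s (par f) * s f) = s (par f) ^ 2 * (s 0 * s f) := by ring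
        rw [h7] at h5
        exact (mul_pos_iff_of_pos_left h6).1 h5
  intro f
  exact key (dep f) f le_rfl

end Pool.Agent.ICB
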