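import Pool.Agent.ICB.St

/-!
# The triangles are not degenerate (module DET)
-/

set_option autoImplicit false

open scoped RealInnerProductSpace

namespace Pool.Agent.ICB

/-- An exposed point of `P` is not a convex combination of two other points of `P`. -/
theorem DET_aux (P : Set E3) (x y z : E3) (hx : IsExposed ℝ P {x}) (hy : y ∈ P) (hz : z ∈ P)
    (hyx : y ≠ x) (hzx : z ≠ x) (a b : ℝ) (ha : 0 ≤ a) (hb : 0 ≤ b) (hab : 0 < a + b)
    (h : (a + b) • x = a • y + b • z) : False := by
  obtain ⟨g, hg⟩ := hx ⟨x, rfl⟩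
  have hxm : x ∈ {w ∈ P | ∀ y ∈ P, g y ≤ g w} := by rw [← hg]; rfl
  have h1 : g y ≤ g x := hxm.2 y hy
  have h2 : g z ≤ g x := hxm.2 z hz
  have key : ∀ u ∈ P, g x ≤ g u → u = x := by
    intro u hu hxu
    have : u ∈ ({x} : Set E3) := by
      rw [hg]
      exact ⟨hu, fun t ht => (hxm.2 t ht).trans hxu⟩
    exact this
  have h3 : g y < g x := lt_of_not_ge fun hle => hyx (key y hy hle)
  have h4 : g z < g x := lt_of_not_ge fun hle => hzx (key z hz hle)
  have h5 : (a + b) * g x = a * g y + b * g z := by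
    have := congrArg g h
    simpa using this
  rcases lt_or_eq_of_le ha with ha' | ha'
  · nlinarith
  · rcases lt_or_eq_of_le hb with hb' | hb'
    · nlinarith
    · rw [← ha', ← hb'] at hab
      simp at hab

/-- Two coefficients of the same sign are impossible. -/
theorem DET_same (P : Set E3) (x y z : E3) (hx : IsExposed ℝ P {x}) (hy : y ∈ P) (hz : z ∈ P)
    (hyx : y ≠ x) (hzx : z ≠ x) (a b c : ℝ) (hs : 0 ≤ b * c) (hsum : a + b + c = 0)
    (hne : ¬(a = 0 ∧ b = 0 ∧ c = 0)) (h : a • x + b • y + c • z = 0) : False := by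
  have ha : a = -(b + c) := by linarith
  have h' : (b + c) • x = b • y + c • z := by
    rw [ha] at h
    have h2 : b • y + c • z = (b + c) • x + (-(b + c) • x + b • y + c • z) := by
      module
    rw [h2, h, add_zero]
  by_cases hbc : b + c = 0
  · apply hne
    have hb : b = 0 := by
      have : c = -b := by linarith
      rw [this] at hs
      nlinarith [sq_nonneg b, mul_self_eq_zero.mp (le_antisymm (by nlinarith : b * b ≤ 0) (mul_self_nonneg b))]
    have hc : c = 0 := by linarith
    exact ⟨by rw [ha, hb, hc]; ring, hb, hc⟩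
  · rcases lt_or_gt_of_ne hbc with hlt | hgt
    · have hb : b ≤ 0 := by
        by_contra hb
        push Not at hb
        have : 0 ≤ c := nonneg_of_mul_nonneg_right hs hb
        linarith
      have hc : c ≤ 0 := by
        by_contra hc
        push Not at hc
        have : 0 ≤ b := nonneg_of_mul_nonneg_left hs hc
        linarith
      refine DET_aux P x y z hx hy hz hyx hzx (-b) (-c) (by linarith) (by linarith) (by linarith) ?_
      have : (-b + -c) • x = -((b + c) • x) := by module
      rw [this, h']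
      module
    · have hb : 0 ≤ b := by
        by_contra hb
        push Not at hb
        have : c ≤ 0 := by
          by_contra hc
          push Not at hc
          nlinarith
        linarith
      have hc : 0 ≤ c := by
        by_contra hc
        push Not at hc
        have : b ≤ 0 := by
          by_contra hb
          push Not at hb
          nlinarith
        linarith
      exact DET_aux P x y z hx hy hz hyx hzx b c hb hc hgt h'

theorem DET_tri : ∀ f, tri f 0 ≠ tri f 1 ∧ tri f 0 ≠ tri f 2 ∧ tri f 1 ≠ tri f 2 := by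
  decide

theorem t_DET (h : StSUP) : StDET := by
  intro P w o hI ho f hdet
  obtain ⟨l, m, hlo, hl⟩ := h P w o hI ho f
  have hlm : ∀ k : Fin 3, l (w (tri f k)) = m := by
    intro k
    rcases hl (tri f k) with h1 | h1
    · exact h1.1
    · exact absurd ⟨k, rfl⟩ h1.2
  have hmem : ∀ i, w i ∈ P := by
    intro i
    rw [hI.hull_eq]
    exact subset_convexHull ℝ _ ⟨i, rfl⟩
  obtain ⟨v, hv0, hv⟩ := Matrix.exists_vecMul_eq_zero_iff.mpr hdet
  have hsum : v 0 • (w (tri f 0) - o) + v 1 • (w (tri f 1) - o) + v 2 • (w (tri f 2) - o) = 0 := by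
    ext j
    have := congrFun hv j
    simp only [Matrix.vecMul, dotProduct, Fin.sum_univ_three, Matrix.of_apply,
      Pi.zero_apply] at this
    simpa using this
  have hs : (v 0 + v 1 + v 2) * (m - l o) = 0 := by
    have := congrArg l hsum
    simp only [map_add, map_smul, map_sub, hlm, map_zero, smul_eq_mul] at this
    linarith
  have hs0 : v 0 + v 1 + v 2 = 0 := by
    rcases mul_eq_zero.mp hs with h1 | h1
    · exact h1
    · linarith
  have hw : v 0 • w (tri f 0) + v 1 • w (tri f 1) + v 2 • w (tri f 2) = 0 := by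
    have h1 : v 0 • w (tri f 0) + v 1 • w (tri f 1) + v 2 • w (tri f 2)
        = (v 0 • (w (tri f 0) - o) + v 1 • (w (tri f 1) - o) + v 2 • (w (tri f 2) - o))
          + (v 0 + v 1 + v 2) • o := by
      module
    rw [h1, hsum, hs0, zero_smul, add_zero]
  have hne : ¬(v 0 = 0 ∧ v 1 = 0 ∧ v 2 = 0) := by
    rintro ⟨h0, h1, h2⟩
    apply hv0
    funext k
    fin_cases k
    · exact h0
    · exact h1
    · exact h2
  obtain ⟨t01, t02, t12⟩ := DET_tri f
  have n01 : w (tri f 0) ≠ w (tri f 1) := fun e => t01 (hI.inj e)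
  have n02 : w (tri f 0) ≠ w (tri f 2) := fun e => t02 (hI.inj e)
  have n12 : w (tri f 1) ≠ w (tri f 2) := fun e => t12 (hI.inj e)
  have hcase : 0 ≤ v 1 * v 2 ∨ 0 ≤ v 0 * v 2 ∨ 0 ≤ v 0 * v 1 := by
    rcases le_total 0 (v 0) with a | a <;> rcases le_total 0 (v 1) with b | b <;>
      rcases le_total 0 (v 2) with c | c
    · exact Or.inl (mul_nonneg b c)
    · exact Or.inr (Or.inr (mul_nonneg a b))
    · exact Or.inr (Or.inl (mul_nonneg a c))
    · exact Or.inl (mul_nonneg_of_nonpos_of_nonpos b c)
    · exact Or.inl (mul_nonneg b c)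
    · exact Or.inr (Or.inl (mul_nonneg_of_nonpos_of_nonpos a c))
    · exact Or.inr (Or.inr (mul_nonneg_of_nonpos_of_nonpos a b))
    · exact Or.inl (mul_nonneg_of_nonpos_of_nonpos b c)
  rcases hcase with hc | hc | hc
  · exact DET_same P _ _ _ (hI.vertex (tri f 0)) (hmem (tri f 1)) (hmem (tri f 2)) n01.symm n02.symm
      (v 0) (v 1) (v 2) hc hs0 hne hw
  · refine DET_same P _ _ _ (hI.vertex (tri f 1)) (hmem (tri f 0)) (hmem (tri f 2)) n01 n12.symm
      (v 1) (v 0) (v 2) hc (by linarith) (fun ⟨a, b, c⟩ => hne ⟨b, a, c⟩) ?_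
    rw [← hw]
    abel
  · refine DET_same P _ _ _ (hI.vertex (tri f 2)) (hmem (tri f 0)) (hmem (tri f 1)) n02 n12
      (v 2) (v 0) (v 1) hc (by linarith) (fun ⟨a, b, c⟩ => hne ⟨b, c, a⟩) ?_
    rw [← hw]
    abel

end Pool.Agent.ICB
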