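import Pool.Agent.ICB.St

/-! # ICB.EXPT: extreme points of polytopes are exposed -/

set_option autoImplicit false

namespace Pool.Agent.ICB

theorem t_EXPT : StEXPT := by
  intro S x hx _
  have hxS : x ∈ (S : Set E3) := extremePoints_convexHull_subset hx
  set K : Set E3 := convexHull ℝ ((S : Set E3) \ {x}) with hK
  have hKsub : K ⊆ hull S := convexHull_mono Set.sdiff_subset
  have hxK : x ∉ K := by
    intro hxK
    have h1 : x ∈ K.extremePoints ℝ :=
      inter_extremePoints_subset_extremePoints_of_subset hKsub ⟨hxK, hx⟩
    exact (extremePoints_convexHull_subset h1).2 rfl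
  have hfin : ((S : Set E3) \ {x}).Finite := S.finite_toSet.subset Set.sdiff_subset
  obtain ⟨l, u, hlK, hlx⟩ := geometric_hahn_banach_closed_point (convex_convexHull ℝ _)
    (hfin.isClosed_convexHull ℝ) hxK
  refine ⟨l, ?_⟩
  have hconv : Convex ℝ (insert x {z : E3 | l z < l x}) := by
    intro a ha b hb s t hs ht hst
    rcases hs.eq_or_lt with rfl | hs
    · have : t = 1 := by linarith
      subst this
      simpa using hb
    rcases ht.eq_or_lt with rfl | ht
    · have : s = 1 := by linarith
      subst this
      simpa using ha
    rcases ha with rfl | ha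
    · rcases hb with rfl | hb
      · left
        rw [← add_smul, hst, one_smul]
      · right
        change l (s • a + t • b) < l a
        have hb' : l b < l a := hb
        rw [map_add, map_smul, map_smul, smul_eq_mul, smul_eq_mul]
        have h1 : t * l b < t * l a := mul_lt_mul_of_pos_left hb' ht
        have h2 : s * l a + t * l a = l a := by rw [← add_mul, hst, one_mul]
        linarith
    · right
      have ha' : l a < l x := ha
      have hb' : l b ≤ l x := by
        rcases hb with rfl | hb
        · exact le_rfl
        · exact le_of_lt hb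
      change l (s • a + t • b) < l x
      rw [map_add, map_smul, map_smul, smul_eq_mul, smul_eq_mul]
      have h1 : s * l a < s * l x := mul_lt_mul_of_pos_left ha' hs
      have h2 : t * l b ≤ t * l x := mul_le_mul_of_nonneg_left hb' ht.le
      have h3 : s * l x + t * l x = l x := by rw [← add_mul, hst, one_mul]
      linarith
  have hsub : hull S ⊆ insert x {z : E3 | l z < l x} := by
    refine convexHull_min ?_ hconv
    intro z hz
    by_cases hzx : z = x
    · exact Or.inl hzx
    · exact Or.inr (lt_trans (hlK z (subset_convexHull ℝ _ ⟨hz, hzx⟩)) hlx)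
  ext z
  simp only [Set.mem_singleton_iff, Set.mem_ofPred_eq]
  constructor
  · rintro rfl
    refine ⟨subset_convexHull ℝ _ hxS, fun y hy => ?_⟩
    rcases hsub hy with rfl | hy
    · exact le_rfl
    · exact le_of_lt hy
  · rintro ⟨hz, hmax⟩
    rcases hsub hz with h | h
    · exact h
    · exact absurd (hmax x (subset_convexHull ℝ _ hxS)) (not_le.mpr h)

end Pool.Agent.ICB
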