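import Pool.Agent.ICB.St

/-!
# ICB, module FRM: measure of the boundary

The boundary is the union of the twenty triangles, which meet pairwise in null sets.
-/

set_option autoImplicit false

open scoped RealInnerProductSpace
open MeasureTheory Measure

namespace Pool.Agent.ICB

theorem t_FRM (hF : StFRT) (hN : StNUL) (hI : StINT) : StFRM := by
  intro P w h hint
  have hfin : (Set.range w).Finite := Set.finite_range w
  have hconv : Convex ℝ P := by rw [h.hull_eq]; exact convex_convexHull ℝ _
  have hcomp : IsCompact P := by rw [h.hull_eq]; exact hfin.isCompact_convexHull ℝ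
  have hmiss : ∀ f : Fin 20, ∃ i : Fin 12, ¬ ∃ k, tri f k = i := by decide
  have hne : ∀ f, face w f ≠ P := by
    intro f hf
    obtain ⟨i, hi⟩ := hmiss f
    apply hi
    rw [← h.mem_face f i, hf, h.hull_eq]
    exact subset_convexHull ℝ _ (Set.mem_range_self i)
  have hfr : frontier P = ⋃ f ∈ (Finset.univ : Finset (Fin 20)), face w f := by
    ext x
    rw [hF P hconv hcomp hint x]
    simp only [Finset.mem_univ, Set.iUnion_true, Set.mem_iUnion]
    constructor
    · rintro ⟨F, hFe, hFP, hx⟩
      obtain ⟨f, hf⟩ := h.cover F hFe hFP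
      exact ⟨f, hf hx⟩
    · rintro ⟨f, hx⟩
      exact ⟨face w f, h.face_exposed f, hne f, hx⟩
  have hmeas : ∀ f, MeasurableSet (face w f) := by
    intro f
    have hf : ({w (tri f 0), w (tri f 1), w (tri f 2)} : Set E3).Finite := by
      exact Set.toFinite _
    exact (hf.isCompact_convexHull ℝ).isClosed.measurableSet
  rw [hfr]
  apply measure_biUnion_finset₀
  · intro f _ g _ hfg
    obtain ⟨x, y, hxy⟩ := hI P w h f g hfg
    exact measure_mono_null hxy (hN.1 x y)
  · intro f _
    exact (hmeas f).nullMeasurableSet

end Pool.Agent.ICB
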