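import Pool.Agent.ICB.St

/-!
# The boundary of a convex body is the union of its proper exposed faces
-/

set_option autoImplicit false

namespace Pool.Agent.ICB

theorem t_FRT : StFRT := by
  intro P hc hk hi x
  have hcl := hk.isClosed
  constructor
  · intro hx
    have hxP : x ∈ P := hcl.frontier_subset hx
    have hxn : x ∉ interior P := hx.2
    obtain ⟨l, hl⟩ := geometric_hahn_banach_open_point hc.interior isOpen_interior hxn
    have hle : ∀ y ∈ P, l y ≤ l x := by
      intro y hy
      have hy' : y ∈ closure (interior P) := by
        rw [hc.closure_interior_eq_closure_of_nonempty_interior hi]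
        exact subset_closure hy
      exact closure_minimal (t := {z | l z ≤ l x}) (fun z hz => (hl z hz).le)
        (isClosed_le l.continuous continuous_const) hy'
    refine ⟨{z ∈ P | ∀ y ∈ P, l y ≤ l z}, fun _ => ⟨l, rfl⟩, ?_, hxP, hle⟩
    intro h
    obtain ⟨y, hy⟩ := hi
    have hyF : y ∈ {z ∈ P | ∀ y ∈ P, l y ≤ l z} := by
      rw [h]
      exact interior_subset hy
    exact absurd (hyF.2 x hxP) (not_le.2 (hl y hy))
  · rintro ⟨F, hF, hne, hxF⟩
    obtain ⟨l, rfl⟩ := hF ⟨x, hxF⟩
    rw [hcl.frontier_eq]
    refine ⟨hxF.1, fun hxi => hne ?_⟩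
    have h0 : ∀ v, l v ≤ 0 := by
      intro v
      have hcont : Continuous fun t : ℝ => x + t • v := by fun_prop
      have hev : ∀ᶠ t in nhds (0 : ℝ), x + t • v ∈ interior P := by
        apply hcont.continuousAt.eventually_mem
        simpa using isOpen_interior.mem_nhds hxi
      obtain ⟨ε, hε, hball⟩ := Metric.eventually_nhds_iff.1 hev
      have hmem : x + (ε / 2) • v ∈ interior P := by
        apply hball
        rw [Real.dist_eq, sub_zero, abs_of_pos (by positivity)]
        linarith
      have h1 := hxF.2 _ (interior_subset hmem)
      simp only [map_add, map_smul, smul_eq_mul] at h1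
      have h2 : ε / 2 * l v ≤ 0 := by linarith
      by_contra hlt
      push Not at hlt
      have h3 : 0 < ε / 2 * l v := by positivity
      linarith
    have hz : ∀ v, l v = 0 := by
      intro v
      have h1 := h0 v
      have h2 := h0 (-v)
      rw [map_neg] at h2
      linarith
    ext z
    constructor
    · exact fun h => h.1
    · intro h
      refine ⟨h, fun y _ => ?_⟩
      rw [hz y, hz z]

end Pool.Agent.ICB
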