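import Pool.Agent.ICB.St

/-! # Module GEN: a face of a polytope is the convex hull of its vertices -/

set_option autoImplicit false

namespace Pool.Agent.ICB

theorem t_GEN (h : StEXPT) : StGEN := by
  intro S F hF
  have hfin : (S : Set E3).Finite := S.finite_toSet
  have hcomp : IsCompact (hull S) := hfin.isCompact_convexHull ℝ
  have hFc : IsCompact F := hF.isCompact hcomp
  have hFx : Convex ℝ F := hF.convex (convex_convexHull ℝ _)
  have hKM : closure (convexHull ℝ (F.extremePoints ℝ)) = F :=
    closure_convexHull_extremePoints hFc hFx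
  have hsub : F.extremePoints ℝ ⊆ (hull S).extremePoints ℝ :=
    hF.isExtreme.extremePoints_subset_extremePoints
  have hsub2 : F.extremePoints ℝ ⊆ (S : Set E3) :=
    hsub.trans extremePoints_convexHull_subset
  have hclosed : IsClosed (convexHull ℝ (F.extremePoints ℝ)) :=
    (hfin.subset hsub2).isClosed_convexHull ℝ
  rw [hclosed.closure_eq] at hKM
  apply Set.Subset.antisymm
  · calc F = convexHull ℝ (F.extremePoints ℝ) := hKM.symm
      _ ⊆ convexHull ℝ {x | x ∈ F ∧ IsExposed ℝ (hull S) {x}} := by
        apply convexHull_mono
        intro x hx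
        exact ⟨extremePoints_subset hx, h S x (hsub hx)⟩
  · apply convexHull_min _ hFx
    intro x hx
    exact hx.1

end Pool.Agent.ICB
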