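import Pool.Agent.ICB.St

/-! Module HTR of the project ICB: the Hausdorff measure of a triangle. -/

set_option autoImplicit false

open scoped RealInnerProductSpace
open MeasureTheory Measure

namespace Pool.Agent.ICB

/-- The standard triangle in the plane. -/
def dHTR : Set E2 := convexHull ℝ {0, EuclideanSpace.single 0 1, EuclideanSpace.single 1 1}

theorem haarHTR : IsAddHaarMeasure (μH[2] : Measure E2) := by
  have h := isAddHaarMeasure_hausdorffMeasure (E := E2)
  have hfr : ((Module.finrank ℝ E2 : ℕ) : ℝ) = 2 := by simp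
  rwa [hfr] at h

theorem dHTR_interior : (interior dHTR).Nonempty := by
  rw [dHTR, interior_convexHull_nonempty_iff_affineSpan_eq_top]
  rw [eq_top_iff]
  intro x _
  have hx := affineSpan_insert_zero (k := ℝ) (s := ({EuclideanSpace.single (0 : Fin 2) (1:ℝ),
    EuclideanSpace.single (1 : Fin 2) (1:ℝ)} : Set E2))
  change x ∈ ((affineSpan ℝ (insert 0 ({EuclideanSpace.single (0 : Fin 2) (1:ℝ),
    EuclideanSpace.single (1 : Fin 2) (1:ℝ)} : Set E2)) : AffineSubspace ℝ E2) : Set E2)
  rw [hx, SetLike.mem_coe]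
  rw [Submodule.mem_span_pair]
  refine ⟨x 0, x 1, ?_⟩
  ext i
  fin_cases i <;> simp

theorem t_HTR : StHTR := by
  have := haarHTR
  have h0 : (μH[2] : Measure E2) dHTR ≠ 0 :=
    (measure_pos_of_nonempty_interior _ dHTR_interior).ne'
  have h1 : (μH[2] : Measure E2) dHTR ≠ ⊤ := by
    refine IsCompact.measure_ne_top ?_
    exact (Set.toFinite _).isCompact_convexHull ℝ
  refine ⟨2 * μH[2] dHTR, ?_, ?_, fun a b c => ?_⟩
  · simp [h0]
  · exact ENNReal.mul_ne_top (by simp) h1
  let B := EuclideanSpace.basisFun (Fin 2) ℝ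
  let L : E2 →ₗ[ℝ] E3 := B.toBasis.constr ℝ ![b - a, c - a]
  have hB : ∀ i, L (B i) = ![b - a, c - a] i := fun i => by
    have := B.toBasis.constr_basis ℝ ![b - a, c - a] i
    simp [L]
  have hs : ∀ i, L (EuclideanSpace.single i 1) = ![b - a, c - a] i := fun i => by
    rw [← hB i]; simp [B]
  have himg : convexHull ℝ {a, b, c} = (IsometryEquiv.addLeft a) '' (L '' dHTR) := by
    rw [dHTR, LinearMap.image_convexHull, Set.image_insert_eq, Set.image_pair, map_zero, hs, hs]
    have h2 : ∀ s : Set E3, (IsometryEquiv.addLeft a) '' (convexHull ℝ s)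
        = convexHull ℝ ((fun x => a + x) '' s) := fun s => by
      have := AffineMap.image_convexHull
        ((AffineEquiv.constVAdd ℝ E3 a).toAffineMap) s
      convert this using 1 <;> rfl
    rw [h2]
    congr 1
    rw [Set.image_insert_eq, Set.image_pair]
    simp
  rw [himg, (IsometryEquiv.addLeft a).isometry.hausdorffMeasure_image (Or.inl (by norm_num))]
  have hfr : ((Module.finrank ℝ E2 : ℕ) : ℝ) = 2 := by simp
  have hm := L.hausdorffMeasure_image dHTR
  rw [hfr] at hm
  rw [hm]
  have hg := L.normDet_sq_eq_det_gram B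
  have hn : L.normDet = 2 * triArea a b c := by
    have h3 : L.normDet ^ 2 = ‖b - a‖ ^ 2 * ‖c - a‖ ^ 2 - ⟪b - a, c - a⟫ ^ 2 := by
      have h4 : L.normDet ^ 2 = (Matrix.gram ℝ (fun i => L (B i))).det := by
        exact_mod_cast hg
      rw [h4, Matrix.det_fin_two]
      simp only [Matrix.gram_apply, hB, Matrix.cons_val_zero, Matrix.cons_val_one]
      rw [real_inner_self_eq_norm_sq, real_inner_self_eq_norm_sq, real_inner_comm (b - a) (c - a)]
      ring
    rw [triArea, ← h3, Real.sqrt_sq L.normDet_nonneg]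
    ring
  rw [hn, mul_comm (2:ℝ), ENNReal.ofReal_mul' (by norm_num)]
  rw [mul_assoc]
  congr 2
  simp

end Pool.Agent.ICB
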