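import Mathlib

/-!
# From convex polytopes of the icosahedral type to vertex maps (MP_fa01f0_gt)

Definitions and statements of the modules of the project ICB. Every statement is a `Prop`
`St...`; the doc string contains a complete proof in words. A module proves one statement and may
use others as hypotheses, exactly as written in its specification.

Goal: the four hand-ins of MP_fa01f0_gt (Steiner's inequality for vertex maps of the icosahedral
triangulation) in the words of the problem: exposed faces, Hausdorff measure of the boundary,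
volume of a convex polytope.
-/

set_option autoImplicit false

open scoped RealInnerProductSpace
open MeasureTheory Measure

namespace Pool.Agent.ICB

/-- Euclidean three-space. -/
abbrev E3 : Type := EuclideanSpace ℝ (Fin 3)

/-- The Euclidean plane. -/
abbrev E2 : Type := EuclideanSpace ℝ (Fin 2)

/-- The twenty triangles of the icosahedron on the vertex set `Fin 12`, coherently oriented. The
vertex opposite to `i` is `i + 6` (modulo `12`). -/
def tri : Fin 20 → Fin 3 → Fin 12 :=
  ![![0, 2, 4], ![6, 9, 5], ![1, 8, 11], ![7, 3, 10], ![1, 0, 4],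
    ![0, 1, 11], ![3, 2, 0], ![2, 3, 7], ![5, 4, 2], ![4, 5, 9],
    ![6, 10, 8], ![0, 11, 3], ![7, 5, 2], ![1, 4, 9], ![7, 10, 6],
    ![6, 5, 7], ![9, 6, 8], ![8, 1, 9], ![11, 8, 10], ![10, 3, 11]]

/-- Area of the triangle with vertices `x, y, z`. -/
noncomputable def triArea (x y z : E3) : ℝ :=
  1 / 2 * Real.sqrt (‖y - x‖ ^ 2 * ‖z - x‖ ^ 2 - ⟪y - x, z - x⟫ ^ 2)

/-- Total area of the twenty triangles of the polyhedral surface with vertices `w`. -/
noncomputable def area (w : Fin 12 → E3) : ℝ :=
  ∑ f, triArea (w (tri f 0)) (w (tri f 1)) (w (tri f 2))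

/-- (Signed) volume enclosed by the polyhedral surface with vertices `w`. -/
noncomputable def vol (w : Fin 12 → E3) : ℝ :=
  ∑ f, (Matrix.of fun i j => w (tri f i) j).det / 6

/-- The vertices of the regular icosahedron with edge length two, in the coordinates of the frozen
statement (the mirror image of `CentrallySymmetric.regular`). -/
noncomputable def reg : Fin 12 → E3 :=
  ![!₂[0, 1, Real.goldenRatio], !₂[0, -1, Real.goldenRatio],
    !₂[1, Real.goldenRatio, 0], !₂[-1, Real.goldenRatio, 0],
    !₂[Real.goldenRatio, 0, 1], !₂[Real.goldenRatio, 0, -1],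
    !₂[0, -1, -Real.goldenRatio], !₂[0, 1, -Real.goldenRatio],
    !₂[-1, -Real.goldenRatio, 0], !₂[1, -Real.goldenRatio, 0],
    !₂[-Real.goldenRatio, 0, -1], !₂[-Real.goldenRatio, 0, 1]]

/-- The convex hull of a finite set of points. -/
abbrev hull (S : Finset E3) : Set E3 := convexHull ℝ (S : Set E3)

/-- The poset of exposed faces (with the empty set and the whole set). -/
abbrev Fc (A : Set E3) : Type := {F : Set E3 // IsExposed ℝ A F}

/-- The finite set of the vertices of the regular icosahedron. -/
noncomputable def regSet : Finset E3 := Finset.univ.image reg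

/-- The solid regular icosahedron. -/
noncomputable abbrev Ico : Set E3 := hull regSet

/-- The triangle number `f` of the surface with vertices `w`. -/
def face (w : Fin 12 → E3) (f : Fin 20) : Set E3 :=
  convexHull ℝ {w (tri f 0), w (tri f 1), w (tri f 2)}

/-- `i` and `j` are different and joined by an edge of the icosahedron. -/
def Adj (i j : Fin 12) : Prop := i ≠ j ∧ ∃ f, (∃ k, tri f k = i) ∧ ∃ k, tri f k = j

instance (i j : Fin 12) : Decidable (Adj i j) := by unfold Adj; infer_instance

/-- `w` labels the vertices of the convex polytope `P` by the vertices of the icosahedron, so that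
the faces of `P` correspond to those of the icosahedron. -/
structure IsIco (P : Set E3) (w : Fin 12 → E3) : Prop where
  hull_eq : P = convexHull ℝ (Set.range w)
  inj : Function.Injective w
  vertex : ∀ i, IsExposed ℝ P {w i}
  face_exposed : ∀ f, IsExposed ℝ P (face w f)
  mem_face : ∀ f i, w i ∈ face w f ↔ ∃ k, tri f k = i
  cover : ∀ F, IsExposed ℝ P F → F ≠ P → ∃ f, F ⊆ face w f
  edge : ∀ i j, i ≠ j → (IsExposed ℝ P (segment ℝ (w i) (w j)) ↔ Adj i j)

/-- Six times the signed volume of the tetrahedron with apex `o` over the triangle `f`. -/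
noncomputable def dt (o : E3) (w : Fin 12 → E3) (f : Fin 20) : ℝ :=
  (Matrix.of fun i j => w (tri f i) j - o j).det

/-! ### General facts on polytopes -/

/-- **EXPT** (extreme points of polytopes are exposed). Proof. Let `x` be an extreme point of
`hull S`. By `extremePoints_convexHull_subset`, `x ∈ S`. Let `K` be the hull of `S \ {x}`. If
`x ∈ K` then `x` is an extreme point of `K`
(`inter_extremePoints_subset_extremePoints_of_subset`), hence `x ∈ S \ {x}` by
`extremePoints_convexHull_subset`, a contradiction. So `x ∉ K`, `K` is compact convex (finite set: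
`Set.Finite.isCompact_convexHull`, `Set.Finite.isClosed_convexHull`) and by
`geometric_hahn_banach_closed_point` there are a continuous functional `l` and `u` with `l k < u`
on `K` and `u < l x`. Then `{x} = {z ∈ hull S | ∀ y ∈ hull S, l y ≤ l z}`: all `s ∈ S` have
`l s ≤ l x`, so `hull S` lies in the half space `l ≤ l x`; and a point `z` of the hull with
`l z = l x` is `x`: the set `{x} ∪ {z | l z < l x}` is convex (elementary: if `a` or `b` is
different from `x` then a proper convex combination has `l < l x`) and contains `S`. -/
def StEXPT : Prop :=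
  ∀ S : Finset E3, ∀ x ∈ (hull S).extremePoints ℝ, IsExposed ℝ (hull S) {x}

/-- **GEN** (a face is the hull of its vertices). Proof. `F` is compact (`IsExposed.isCompact`) and
convex (`IsExposed.convex`), so by Krein-Milman (`closure_convexHull_extremePoints`)
`closure (convexHull (F.extremePoints)) = F`. `F` is an extreme set (`IsExposed.isExtreme`), so
`F.extremePoints ⊆ (hull S).extremePoints` (`IsExtreme.extremePoints_subset_extremePoints`)
`⊆ S` (`extremePoints_convexHull_subset`) is finite and its hull is closed; so
`F = convexHull F.extremePoints`. By EXPT the points of `F.extremePoints` are in the set on the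
right, and that set is contained in the convex set `F`. -/
def StGEN : Prop :=
  ∀ S : Finset E3, ∀ F, IsExposed ℝ (hull S) F →
    F = convexHull ℝ {x | x ∈ F ∧ IsExposed ℝ (hull S) {x}}

/-- **FRT** (the boundary is the union of the proper faces). Proof. `→`: `x ∈ frontier P ⊆ P`
(closed), `x ∉ interior P`; by `geometric_hahn_banach_open_point` (applied to the open convex set
`interior P`) there is `l` with `l y < l x` for all `y ∈ interior P`; as `P` is the closure of its
interior (`Convex.closure_interior_eq_closure_of_nonempty_interior`), `l y ≤ l x` on `P`. Take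
`F = {z ∈ P | ∀ y ∈ P, l y ≤ l z}`; `x ∈ F`; `F ≠ P` as an interior point `y` has `l y < l x`.
`←`: let `x ∈ F`, `F ≠ P` exposed by `l` (`F` is nonempty). If `x` were interior to `P` then the
linear functional `l` would have a local maximum at `x`, so `l = 0` (if `l v > 0`, then
`x + t v ∈ P` for small `t > 0` has a larger value), hence `F = P`, a contradiction. So
`x ∈ P \ interior P = frontier P` (`P` closed: `IsClosed.frontier_eq`). -/
def StFRT : Prop :=
  ∀ P : Set E3, Convex ℝ P → IsCompact P → (interior P).Nonempty →
    ∀ x, x ∈ frontier P ↔ ∃ F, IsExposed ℝ P F ∧ F ≠ P ∧ x ∈ F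

/-- **TRF** (an isomorphism of face posets is given by a map of the vertices). Proof. The empty set
is the least element of both posets (`isExposed_empty`), so `φ` maps it to the empty set. Let `y`
be an exposed point of `hull T` and `A = φ.symm {y}`. `A` is not empty, so by GEN it contains an
exposed point `x`; `{x} ≤ A` gives `φ {x} ≤ {y}`, and `φ {x}` is not empty, so `φ {x} = {y}` and
`A = {x}`. Put `g y = x` (and `g y = 0` if `y` is not an exposed point; use `Classical.choose`).
Third clause: `g y ∈ F ↔ {g y} ≤ F ↔ φ {g y} ≤ φ F ↔ {y} ⊆ φ F ↔ y ∈ φ F`. Second clause: by GEN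
`F` is the hull of its exposed points `x`. For such an `x`, the same argument with `φ.symm` gives
that `φ {x} = {y}` for an exposed point `y` of `hull T` (the element `φ {x}` is nonempty, contains
an exposed point `y`, and `φ.symm {y} ≤ {x}` is not empty, so it is `{x}`), hence `{x} = {g y}` by
injectivity of `φ`, and `y ∈ φ F` by the third clause. Conversely `g y ∈ F` for `y ∈ φ F`. So the
exposed points of `hull S` in `F` are the `g y`, `y` an exposed point in `φ F`. -/
def StTRF : Prop :=
  ∀ (S T : Finset E3) (φ : Fc (hull S) ≃o Fc (hull T)), ∃ g : E3 → E3,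
    (∀ y, IsExposed ℝ (hull T) {y} → ∃ h : IsExposed ℝ (hull S) {g y}, (φ ⟨{g y}, h⟩).1 = {y}) ∧
    (∀ F : Fc (hull S),
      F.1 = convexHull ℝ (g '' {y | y ∈ (φ F).1 ∧ IsExposed ℝ (hull T) {y}})) ∧
    ∀ (F : Fc (hull S)) (y : E3), IsExposed ℝ (hull T) {y} → (g y ∈ F.1 ↔ y ∈ (φ F).1)

/-! ### The reg icosahedron -/

/-- **RV** (vertices of the regular icosahedron). All `‖reg i‖ ^ 2 = φ ^ 2 + 1` and `reg`
is injective (`fin_cases`, 1 < φ). The functional `⟪reg i, ·⟫` exposes `{reg i}`: for
`j ≠ i`, `2 ⟪reg i, reg j⟫ = 2 ‖reg i‖ ^ 2 - ‖reg i - reg j‖ ^ 2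
< 2 ⟪reg i, reg i⟫`; then as in EXPT. The last clause: an exposed point is extreme
(`exposedPoints_subset_extremePoints`, `mem_exposedPoints_iff_exposed_singleton`) and lies in
`regSet` by `extremePoints_convexHull_subset`. -/
def StRV : Prop :=
  Function.Injective reg ∧ (∀ i, IsExposed ℝ Ico {reg i}) ∧
    ∀ y, IsExposed ℝ Ico {y} → ∃ i, y = reg i

/-- **RF** (faces of the regular icosahedron). Let `n = ∑ k, reg (tri f k)` and `l = ⟪n, ·⟫`.
Then `l (reg i) = 3 φ + 2` for the three `i` of the triangle `f` and `l (reg i) ≤ φ`, in
particular `< 3 φ + 2`, for the others (20 * 12 explicit checks; suggestion: first the Gram matrix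
`⟪reg i, reg j⟫ = φ + 2, φ, -φ, -(φ + 2)` according to `i = j`, adjacent, `j` adjacent to
`i + 6`, `j = i + 6`, then `decide` for the numbers of adjacent vertices). So the face exposed by
`l` is the hull of the three points: general lemma: if `l ≤ M` on a finite set `A`, the points of
`convexHull A` with `l = M` are the hull of the points of `A` with `l = M` (write
`z = ∑ a, c a • a`, `∑ c a (M - l a) = 0`, so `c a = 0` unless `l a = M`). `reg i ∈ face` iff
`l (reg i) = 3 φ + 2` iff `i` is one of the three. -/
def StRF : Prop :=
  ∀ f, IsExposed ℝ Ico (face reg f) ∧ ∀ i, reg i ∈ face reg f ↔ ∃ k, tri f k = i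

/-- **RE** (edges of the regular icosahedron). As RF with `l = ⟪reg i + reg j, ·⟫`: it is
`2 φ + 2` at `i, j` and at most `2 φ` at the other vertices. -/
def StRE : Prop :=
  ∀ i j, Adj i j → IsExposed ℝ Ico (segment ℝ (reg i) (reg j))

/-- **RC** (every proper face lies in a triangle). Let `F ≠ Ico` be exposed. If it is empty there is
nothing to prove. Otherwise `F = {z ∈ Ico | ∀ y ∈ Ico, l y ≤ l z}`, `l = ⟪v, ·⟫`
(`InnerProductSpace.toDual`), and `v ≠ 0` since `F ≠ Ico`. It is enough to find `f` with: for
every `i` not in the triangle `f` there is `j` with `l (reg i) < l (reg j)`; then only the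
`reg i` with `i` in `f` can lie in `F`, and `F` is the hull of the `reg i` in `F` (GEN and
the last clause of RV, or the general lemma of RF). Let `v = (x, y, z)`; `f` depends only on the
signs of `x, y, z` (the maximum of `l` can only be attained at the vertices with matching signs):
(m = negative, p = positive)
mmm 10, mm0 18, mmp 2, m0m 14, m00 18, m0p 5, mpm 3, mp0 19, mpp 11, 0mm 16, 0m0 16, 0mp 17,
00m 14, 00p 4, 0pm 7, 0p0 6, 0pp 6, pmm 1, pm0 9, pmp 13, p0m 15, p00 8, p0p 4, ppm 12, pp0 8,
ppp 0. Each inequality is linear arithmetic in `x, y, z, φ x, φ y, φ z` once one knows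
`|t| < |φ t|` and that `φ t` has the sign of `t`. -/
def StRC : Prop :=
  ∀ F, IsExposed ℝ Ico F → F ≠ Ico → ∃ f, F ⊆ face reg f

/-- **RA** (assembly). `reg` labels the regular icosahedron. From RV, RF, RE, RC. The missing
clause: if `segment (reg i) (reg j)`, `i ≠ j`, is exposed, it is not `Ico` (a third vertex
`reg k`: were it in the segment it would be, as an exposed, hence extreme, point, one of the
ends, against injectivity), so it lies in some `face reg f` by RC, and `i, j` are vertices of
`f` by RF; so they are adjacent. `hull_eq`: the coercion of `regSet` is `Set.range reg`. -/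
def StRA : Prop := IsIco Ico reg

/-- **LAB** (labelling). From TRF (with `T = regSet`), RV and RA. Put `w i = g (reg i)`. Clause
by clause: `hull_eq`: second clause of TRF for the greatest element `F = hull S` (`φ` maps it to
the greatest element `Ico`), and `reg i ∈ Ico`; the exposed points of `Ico` are the
`reg i` (RV). `inj`: `φ {w i} = {reg i}`. `vertex`: first clause. `face_exposed`: let
`F = φ.symm (face reg f)`; by the second clause `F` is the hull of the `g y`, `y` an exposed
point of `Ico` in `face reg f`, i.e. of the `w i`, `i` in the triangle `f` (RV, RA), which is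
`face w f`. `mem_face`: third clause. `cover`: `φ F ≠ Ico` and so `φ F ⊆ face reg f`, hence
`F ≤ φ.symm (face reg f) = face w f`. `edge`: `segment x y = convexHull {x, y}`
(`convexHull_pair`); if `Adj i j`, the element `φ.symm (segment (reg i) (reg j))` is the
hull of the `w k` with `reg k` in the segment, i.e. `k = i` or `k = j` (an exposed point in a
segment which is ... an extreme point of `Ico`, so an end of the segment). Conversely, if
`F = segment (w i) (w j)` is exposed then `φ F` is exposed and its vertices are exactly the
`reg k` with `w k ∈ F`, i.e. `k = i, j` (again extreme points), so by GEN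
`φ F = segment (reg i) (reg j)` is exposed and RA gives `Adj i j`. -/
def StLAB : Prop :=
  ∀ (S : Finset E3) (φ : Fc (hull S) ≃o Fc Ico), ∃ w : Fin 12 → E3, IsIco (hull S) w ∧
    ∀ i, ∃ h : IsExposed ℝ (hull S) {w i}, (φ ⟨{w i}, h⟩).1 = {reg i}

/-! ### Orientation -/

/-- **SUP** (supporting planes). `face w f` is not empty, so it is exposed by some `l`; put
`m = l (w (tri f 0))`. For `i` in `f`, `w i ∈ face w f`, so `l (w i) = m`; for `i` not in `f`,
`w i ∉ face w f` (`mem_face`) although `w i ∈ P` (`hull_eq`), so `l (w i) < m`. Some `i` is not in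
`f` (`decide`). If `m ≤ l o`, take `z = o + ε (o - w i) ∈ P` for small `ε > 0` (`o` is interior):
`l z > l o ≥ m`, but `l ≤ m` on `P`. -/
def StSUP : Prop :=
  ∀ (P : Set E3) (w : Fin 12 → E3) (o : E3), IsIco P w → o ∈ interior P → ∀ f,
    ∃ (l : E3 →L[ℝ] ℝ) (m : ℝ), l o < m ∧
      ∀ i, (l (w i) = m ∧ ∃ k, tri f k = i) ∨ (l (w i) < m ∧ ¬∃ k, tri f k = i)

/-- **DET** (the triangles are not degenerate). Uses SUP. Let `l, m` be as in SUP. Suppose the
determinant is `0`: there are `(α, β, γ) ≠ 0` with `α (A - o) + β (B - o) + γ (C - o) = 0`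
(`Matrix.exists_vecMul_eq_zero_iff`), `A, B, C` the three vertices. Apply `l`:
`(α + β + γ)(m - l o) = 0`, so `α + β + γ = 0`, `α A + β B + γ C = 0`: one of
the three points is in the segment of the other two (of three numbers with sum 0, not all 0,
one has the sign opposite to the two others (weakly); say `α > 0 ≥ β, γ`: then
`A = (-β/α) B + (-γ/α) C`). But `A = w i` is an exposed, hence extreme point of `P` and different
from `B` and `C` (injectivity; `tri f` is injective by `decide`): contradiction. -/
def StDET : Prop :=
  ∀ (P : Set E3) (w : Fin 12 → E3) (o : E3), IsIco P w → o ∈ interior P → ∀ f, dt o w f ≠ 0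

/-- **SGN** (adjacent triangles are coherently oriented as seen from an interior point). Uses SUP
and DET.
Note `f ≠ g` is automatic (`decide`). Let `A, B` be the common vertices minus `o`
(`A = w (tri f a) - o`, `B = w (tri f (a+1)) - o`), `K = w (tri f (a+2)) - o`,
`L = w (tri g (b+2)) - o`. Then `dt o w f = det (A, B, K)`, `dt o w g = det (B, A, L)` (cyclic
permutations of rows; `fin_cases a`, `b`). `A, B, K` is a basis by DET: write
`L = α A + β B + γ K`; so `dt o w g = - γ dt o w f` and it is enough that `γ < 0`. Let `l, m` and
`l', m'` be given by SUP for `f` and `g`, and `p = m - l o > 0`, `p' = m' - l' o > 0`.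
`l A = l B = l K = p` and `l L < p` since `w (tri g (b+2))` is not in `face w f` (`mem_face`,
`decide`), so `(α + β + γ) p < p`, `α + β + γ < 1`. `l' A = l' B = l' L = p'`, `l' K < p'`:
`p' = l' L = (α + β) p' + γ l' K = (α + β + γ) p' - γ (p' - l' K)`, so
`γ (p' - l' K) = (α + β + γ - 1) p' < 0` and `γ < 0`. -/
def StSGN : Prop :=
  ∀ (P : Set E3) (w : Fin 12 → E3) (o : E3), IsIco P w → o ∈ interior P →
    ∀ (f g : Fin 20) (a b : Fin 3), tri f a = tri g (b + 1) → tri f (a + 1) = tri g b →
      0 < dt o w f * dt o w g

/-- **CON** (the surface is connected). The relation `f ~ g` (the hypothesis) joins every `f` to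
`0` by a path: give a table of parents and depths (`decide`) and argue by induction on the depth
that `0 < s 0 * s f`. -/
def StCON : Prop :=
  ∀ s : Fin 20 → ℝ, (∀ (f g : Fin 20) (a b : Fin 3), tri f a = tri g (b + 1) →
    tri f (a + 1) = tri g b → 0 < s f * s g) → ∀ f, 0 < s 0 * s f

/-- **SUM** (the signed volume does not depend on the apex). Expand all determinants
(`Matrix.det_fin_three`, `Fin.sum_univ_succ`, `simp [tri]`), `ring`. If `ring` is too slow: the
difference is `∑ f, det` of rows with exactly one row `o`, and the terms cancel edge by edge. -/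
def StSUM : Prop :=
  ∀ (w : Fin 12 → E3) (o : E3), ∑ f, dt o w f = 6 * vol w

/-- **ABS** (assembly). From DET, SGN, CON, SUM: all `dt o w f` have the same sign. -/
def StABS : Prop :=
  ∀ (P : Set E3) (w : Fin 12 → E3) (o : E3), IsIco P w → o ∈ interior P →
    ∑ f, |dt o w f| = 6 * |vol w|

/-! ### Measures -/

/-- **TET** (volume of a tetrahedron). `τ` is the volume of the hull of `0, e_0, e_1, e_2`
(`EuclideanSpace.single`, or images of a simplex in `Fin 3 → ℝ`); it is not `0` (nonempty interior)
and finite (compact). The tetrahedron is the translate by `o` of the image of that set under the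
linear map `L e_i = v i - o`
(`LinearMap.image_convexHull`, translation: `convexHull` commutes with `o +ᵥ ·` or with
affine maps), and `addHaar_image_linearMap` gives the factor `|det L|`. -/
def StTET : Prop :=
  ∃ τ : ENNReal, τ ≠ 0 ∧ τ ≠ ⊤ ∧ ∀ (v : Fin 3 → E3) (o : E3),
    volume (convexHull ℝ {o, v 0, v 1, v 2}) =
      ENNReal.ofReal |(Matrix.of fun i j => v i j - o j).det| * τ

/-- **NUL** (null sets). A segment has finite `μH[1]` (`hausdorffMeasure_segment`), hence
`μH[2] = 0` (`hausdorffMeasure_zero_or_top`). The hull of three points lies in the affine span of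
three points, of dimension at most 2 < 3, so it is a null set (`addHaar_affineSubspace`). -/
def StNUL : Prop :=
  (∀ x y : E3, μH[2] (segment ℝ x y) = 0) ∧
    ∀ o x y : E3, volume (convexHull ℝ {o, x, y}) = 0

/-- **INT** (two triangles meet at most in a segment). Uses GEN. `F = face w f ∩ face w g` is
exposed in `P` (`IsExposed.inter`), `P = hull (univ.image w)`. By GEN, `F` is the hull of its
exposed points; such a point is extreme in `P`, so it is some `w i`
(`extremePoints_convexHull_subset`), and `i` is a vertex of `f` and of `g` (`mem_face`). By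
`decide` there are `x, y` such that all common vertices of `f ≠ g` are among `w x, w y`. -/
def StINT : Prop :=
  ∀ (P : Set E3) (w : Fin 12 → E3), IsIco P w → ∀ f g : Fin 20, f ≠ g →
    ∃ x y : E3, face w f ∩ face w g ⊆ segment ℝ x y

/-- **CONE** (decomposition into cones). Uses FRT, NUL, INT. Translate so that `o = 0` or work with
the gauge of `P - o`. (1) `P = ⋃ f, C f`, `C f = convexHull {o, ...}` (the four points): `⊇` is
clear. `⊆`: let `x ∈ P`; if `x = o` fine. Otherwise let `t = gauge (P - o) (x - o)`, `0 < t ≤ 1`
(`gauge_pos` for bounded sets, `gauge_le_one_of_mem`), `y = o + t⁻¹ (x - o)` is on the frontier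
of `P` (`gauge_eq_one_iff_mem_frontier`), so by FRT it is in a proper face and by `cover` in some
`face w f`; `x` is in the segment from `o` to `y`. (2) For `f ≠ g`, `C f ∩ C g` is a null set: a
point `x ≠ o` of `C f` is `o + t (y - o)`, `y ∈ face w f`, `0 < t ≤ 1`
(`convexHull_insert`), and `y` is in the frontier (FRT: `face w f` is a proper face), so
`t = gauge (P - o) (x - o)`; the same for `g`, so `y ∈ face w f ∩ face w g ⊆ segment`, and `x` is
in `convexHull {o, x', y'}`, a null set by NUL. (3) `measure_iUnion₀` / `measure_biUnion_finset₀`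
(`AEDisjoint`; the `C f` are compact, hence measurable). -/
def StCONE : Prop :=
  ∀ (P : Set E3) (w : Fin 12 → E3) (o : E3), IsIco P w → o ∈ interior P →
    volume P = ∑ f, volume (convexHull ℝ {o, w (tri f 0), w (tri f 1), w (tri f 2)})

/-- **HTR** (Hausdorff measure of a triangle). Let `Δ` be the hull of `0, e_0, e_1` in `E2` and
`κ = 2 * μH[2] Δ`; it is not `0` and finite because `μH[2]` is an additive Haar measure on `E2`
(`isAddHaarMeasure_hausdorffMeasure`). The triangle is the translate by `a` of the image of `Δ`
under the linear map `L e_0 = b - a, L e_1 = c - a` from `E2` to `E3`;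
`LinearMap.hausdorffMeasure_image` gives the factor `L.normDet`, and
`LinearMap.normDet_sq_eq_det_gram` gives `L.normDet ^ 2 = ‖b-a‖²‖c-a‖² - ⟪b-a, c-a⟫²`, so
`L.normDet = 2 * triArea a b c`. -/
def StHTR : Prop :=
  ∃ κ : ENNReal, κ ≠ 0 ∧ κ ≠ ⊤ ∧ ∀ a b c : E3,
    μH[2] (convexHull ℝ {a, b, c}) = ENNReal.ofReal (triArea a b c) * κ

/-- **FRM** (measure of the boundary). Uses FRT, NUL, INT. `frontier P = ⋃ f, face w f` by FRT,
`cover` (`→`) and `face_exposed`, `face w f ≠ P` (`mem_face`, `decide`) (`←`); pairwise
intersections are null sets by INT and NUL; `measure_biUnion_finset₀`. -/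
def StFRM : Prop :=
  ∀ (P : Set E3) (w : Fin 12 → E3), IsIco P w → (interior P).Nonempty →
    μH[2] (frontier P) = ∑ f, μH[2] (face w f)

/-- **BRG** (the bridge). From ABS, TET, CONE, HTR, FRM. -/
def StBRG : Prop :=
  ∃ κ τ : ENNReal, κ ≠ 0 ∧ κ ≠ ⊤ ∧ τ ≠ 0 ∧ τ ≠ ⊤ ∧ ∀ (P : Set E3) (w : Fin 12 → E3),
    IsIco P w → (interior P).Nonempty →
      μH[2] (frontier P) = ENNReal.ofReal (area w) * κ ∧
        volume P = ENNReal.ofReal |vol w| * τ

/-- **SYM** (central symmetry respects opposite vertices). Uses FRT. Let
`ρ x = 2 c - x`, `ρ P = P`. `c ∈ interior P`: if `x ∈ interior P` then `ρ x ∈ interior P`, and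
`c` is their midpoint. `ρ` maps exposed faces of `P` to exposed faces (if `l` exposes `F`, `-l`
exposes `ρ F`). So `{ρ (w i)}` is exposed and `ρ (w i) = w (π i)` (extreme point of
`hull (range w)`), `π (π i) = i`. No proper face contains `c` (FRT: its points are on the
frontier). `π i ≠ i` (else `w i = c`). `π i` is not adjacent to `i` (else the segment is a proper
exposed face by `edge`, containing the midpoint `c`). `π` preserves adjacency: if `Adj i j`, then
`segment (w i) (w j)` is exposed, so is its image `segment (w (π i)) (w (π j))`, and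
`π i ≠ π j`, so `Adj (π i) (π j)` by `edge`. If `π i ≠ i + 6` then, `decide`: for all `i, k` with
`k ≠ i`, not adjacent and `k ≠ i + 6` there are `a, b` with: `Adj a b`, and for all `x`, `Adj i x`
and `Adj k x` iff `x = a` or `x = b`. With `k = π i`: `π a` is adjacent to `π i = k` and to
`π k = i`, so `π a = a` or `π a = b`; both are excluded. So `π i = i + 6`. -/
def StSYM : Prop :=
  ∀ (P : Set E3) (w : Fin 12 → E3) (c : E3), IsIco P w → (interior P).Nonempty →
    (∀ x ∈ P, (2 : ℝ) • c - x ∈ P) → ∀ i, w (i + 6) = (2 : ℝ) • c - w i

/-- **SET** (the set in the frozen statement is the set of the vertices of the regular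
icosahedron). Two inclusions, 12 and 3 * 4 cases. -/
def StSET : Prop :=
  {x : EuclideanSpace ℝ (Fin 3) | ∃ s t : ℝ, (s = 1 ∨ s = -1) ∧ (t = 1 ∨ t = -1) ∧
      (x = !₂[0, s, t * Real.goldenRatio] ∨ x = !₂[s, t * Real.goldenRatio, 0] ∨
        x = !₂[t * Real.goldenRatio, 0, s])} = (regSet : Set E3)

end Pool.Agent.ICB
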