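import Mathlib
import Pool.Agent.ICB.St

set_option autoImplicit false

open scoped RealInnerProductSpace

namespace Pool.Agent.ICB

/-- An exposed point in a segment is one of the ends. -/
lemma lab_seg {A : Set E3} {x a b : E3} (hx : IsExposed ℝ A {x}) (ha : a ∈ A) (hb : b ∈ A)
    (h : x ∈ segment ℝ a b) : x = a ∨ x = b := by
  have h1 : x ∈ A.extremePoints ℝ :=
    exposedPoints_subset_extremePoints (mem_exposedPoints_iff_exposed_singleton.2 hx)
  rcases (mem_extremePoints_iff_forall_segment.1 h1).2 a ha b hb h with h2 | h2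
  · exact Or.inl h2.symm
  · exact Or.inr h2.symm

lemma lab_tri (w : Fin 12 → E3) (f : Fin 20) :
    w '' {i | ∃ k, tri f k = i} = {w (tri f 0), w (tri f 1), w (tri f 2)} := by
  ext x
  constructor
  · rintro ⟨i, ⟨k, rfl⟩, rfl⟩
    fin_cases k
    · exact Or.inl rfl
    · exact Or.inr (Or.inl rfl)
    · exact Or.inr (Or.inr rfl)
  · rintro (h | h | h)
    · exact ⟨_, ⟨0, rfl⟩, h.symm⟩
    · exact ⟨_, ⟨1, rfl⟩, h.symm⟩
    · exact ⟨_, ⟨2, rfl⟩, (Set.mem_singleton_iff.1 h).symm⟩

theorem t_LAB (hT : StTRF) (hG : StGEN) (hV : StRV) (hA : StRA) : StLAB := by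
  intro S φ
  obtain ⟨hV1, hV2, hV3⟩ := hV
  obtain ⟨g, g1, g2, g3⟩ := hT S regSet φ
  obtain ⟨w, hw⟩ : ∃ w : Fin 12 → E3, w = fun i => g (reg i) := ⟨_, rfl⟩
  have hwi : ∀ i, g (reg i) = w i := fun i => by rw [hw]
  have hEw : ∀ i, ∃ h : IsExposed ℝ (hull S) {w i}, (φ ⟨{w i}, h⟩).1 = {reg i} := by
    intro i
    rw [← hwi i]
    exact g1 (reg i) (hV2 i)
  have hEx : ∀ i, IsExposed ℝ (hull S) {w i} := fun i => (hEw i).1
  have hmem : ∀ (F : Fc (hull S)) (i : Fin 12), w i ∈ F.1 ↔ reg i ∈ (φ F).1 := by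
    intro F i
    rw [← hwi i]
    exact g3 F (reg i) (hV2 i)
  have hset : ∀ G : Set E3, {y | y ∈ G ∧ IsExposed ℝ Ico {y}} = reg '' {i | reg i ∈ G} := by
    intro G
    ext y
    constructor
    · rintro ⟨h1, h2⟩
      obtain ⟨i, rfl⟩ := hV3 y h2
      exact ⟨i, h1, rfl⟩
    · rintro ⟨i, h1, rfl⟩
      exact ⟨h1, hV2 i⟩
  have hF : ∀ F : Fc (hull S), F.1 = convexHull ℝ (w '' {i | reg i ∈ (φ F).1}) := by
    intro F
    have h1 := g2 F
    have h2 := hset (φ F).1
    rw [h2, Set.image_image] at h1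
    rw [h1, hw]
  -- the whole set
  have htop : (φ ⟨hull S, IsExposed.refl _⟩).1 = Ico := by
    apply Set.Subset.antisymm
    · exact (φ ⟨hull S, IsExposed.refl _⟩).2.subset
    · have h1 : φ.symm ⟨Ico, IsExposed.refl _⟩ ≤ ⟨hull S, IsExposed.refl _⟩ :=
        (φ.symm ⟨Ico, IsExposed.refl _⟩).2.subset
      have h2 := (φ.le_iff_le).2 h1
      rw [OrderIso.apply_symm_apply] at h2
      exact h2
  have hregI : ∀ i, reg i ∈ Ico := fun i => (hV2 i).subset (Set.mem_singleton _)
  have hwS : ∀ i, w i ∈ hull S := fun i => (hEx i).subset (Set.mem_singleton _)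
  have hinj : Function.Injective w := by
    intro i j hij
    obtain ⟨h1, h2⟩ := hEw i
    obtain ⟨h3, h4⟩ := hEw j
    apply hV1
    have h5 : (⟨{w i}, h1⟩ : Fc (hull S)) = ⟨{w j}, h3⟩ := Subtype.ext (congrArg (fun x => ({x} : Set E3)) hij)
    rw [h5, h4] at h2
    exact (Set.singleton_injective h2).symm
  have hface : ∀ f, ∃ h : IsExposed ℝ (hull S) (face w f), (φ ⟨face w f, h⟩).1 = face reg f := by
    intro f
    have e1 : (φ (φ.symm ⟨face reg f, hA.face_exposed f⟩)).1 = face reg f := by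
      rw [OrderIso.apply_symm_apply]
    have e2 := hF (φ.symm ⟨face reg f, hA.face_exposed f⟩)
    have e3 : {i | reg i ∈ (φ (φ.symm ⟨face reg f, hA.face_exposed f⟩)).1} =
        {i | ∃ k, tri f k = i} := by
      ext i
      rw [Set.mem_ofPred_eq, Set.mem_ofPred_eq, e1]
      exact hA.mem_face f i
    rw [e3, lab_tri] at e2
    have e4 : IsExposed ℝ (hull S) (face w f) := by
      rw [face, ← e2]
      exact (φ.symm ⟨face reg f, hA.face_exposed f⟩).2
    refine ⟨e4, ?_⟩
    have e5 : (⟨face w f, e4⟩ : Fc (hull S)) = φ.symm ⟨face reg f, hA.face_exposed f⟩ :=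
      Subtype.ext e2.symm
    rw [e5, e1]
  refine ⟨w, ⟨?_, hinj, hEx, fun f => (hface f).1, ?_, ?_, ?_⟩, hEw⟩
  · have h1 := hF ⟨hull S, IsExposed.refl _⟩
    rw [htop] at h1
    have h2 : {i | reg i ∈ Ico} = Set.univ := Set.eq_univ_of_forall hregI
    rw [h2, Set.image_univ] at h1
    exact h1
  · intro f i
    obtain ⟨h1, h2⟩ := hface f
    have h3 := hmem ⟨face w f, h1⟩ i
    rw [h2] at h3
    exact h3.trans (hA.mem_face f i)
  · intro F hFe hne
    have h1 : (φ ⟨F, hFe⟩).1 ≠ Ico := by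
      intro h2
      have h3 : φ ⟨F, hFe⟩ = φ ⟨hull S, IsExposed.refl _⟩ := Subtype.ext (h2.trans htop.symm)
      have h4 := φ.injective h3
      exact hne (congrArg Subtype.val h4)
    obtain ⟨f, h2⟩ := hA.cover _ (φ ⟨F, hFe⟩).2 h1
    refine ⟨f, ?_⟩
    obtain ⟨h3, h4⟩ := hface f
    have h5 : φ ⟨F, hFe⟩ ≤ φ ⟨face w f, h3⟩ := by
      change (φ ⟨F, hFe⟩).1 ⊆ (φ ⟨face w f, h3⟩).1
      rw [h4]
      exact h2
    exact (φ.le_iff_le).1 h5
  · intro i j hij
    constructor
    · intro hs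
      have h1 := hG regSet (φ ⟨segment ℝ (w i) (w j), hs⟩).1 (φ ⟨segment ℝ (w i) (w j), hs⟩).2
      have h2 := hset (φ ⟨segment ℝ (w i) (w j), hs⟩).1
      rw [h2] at h1
      have h3 : {k | reg k ∈ (φ ⟨segment ℝ (w i) (w j), hs⟩).1} = {i, j} := by
        ext k
        rw [Set.mem_ofPred_eq, ← hmem ⟨segment ℝ (w i) (w j), hs⟩ k]
        constructor
        · intro h4
          rcases lab_seg (hEx k) (hwS i) (hwS j) h4 with h5 | h5
          · exact Or.inl (hinj h5)
          · exact Or.inr (hinj h5)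
        · rintro (h4 | h4)
          · rw [h4]
            exact left_mem_segment ℝ _ _
          · rw [Set.mem_singleton_iff.1 h4]
            exact right_mem_segment ℝ _ _
      rw [h3, Set.image_pair, convexHull_pair] at h1
      have h4 : IsExposed ℝ Ico (segment ℝ (reg i) (reg j)) := by
        rw [← h1]
        exact (φ ⟨segment ℝ (w i) (w j), hs⟩).2
      exact (hA.edge i j hij).1 h4
    · intro had
      have hs := (hA.edge i j hij).2 had
      have h1 := hF (φ.symm ⟨segment ℝ (reg i) (reg j), hs⟩)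
      rw [OrderIso.apply_symm_apply] at h1
      have h3 : {k | reg k ∈ segment ℝ (reg i) (reg j)} = {i, j} := by
        ext k
        rw [Set.mem_ofPred_eq]
        constructor
        · intro h4
          rcases lab_seg (hV2 k) (hregI i) (hregI j) h4 with h5 | h5
          · exact Or.inl (hV1 h5)
          · exact Or.inr (hV1 h5)
        · rintro (h4 | h4)
          · rw [h4]
            exact left_mem_segment ℝ _ _
          · rw [Set.mem_singleton_iff.1 h4]
            exact right_mem_segment ℝ _ _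
      rw [h3, Set.image_pair, convexHull_pair] at h1
      rw [← h1]
      exact (φ.symm ⟨segment ℝ (reg i) (reg j), hs⟩).2

end Pool.Agent.ICB
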