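import Pool.Agent.ICB.St

set_option autoImplicit false

open scoped RealInnerProductSpace
open MeasureTheory Measure

namespace Pool.Agent.ICB

/-- NUL: null sets. -/
theorem t_NUL : StNUL := by
  refine ⟨fun x y => ?_, fun o x y => ?_⟩
  · rcases hausdorffMeasure_zero_or_top (show (1 : ℝ) < 2 by norm_num) (segment ℝ x y) with h | h
    · exact h
    · rw [hausdorffMeasure_segment] at h
      exact absurd h (edist_ne_top x y)
  · have hne : affineSpan ℝ ({o, x, y} : Set E3) ≠ ⊤ := by
      intro h
      have hr : Set.range ![o, x, y] = ({o, x, y} : Set E3) := by
        ext z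
        simp only [Matrix.range_cons, Matrix.range_empty, Set.union_empty, Set.singleton_union,
          Set.mem_insert_iff, Set.mem_singleton_iff, Set.mem_union]
      have h1 := finrank_vectorSpan_range_le ℝ ![o, x, y] (n := 2) (by simp)
      rw [hr, ← direction_affineSpan, h, AffineSubspace.direction_top, finrank_top] at h1
      simp at h1
    exact measure_mono_null (convexHull_subset_affineSpan _) (addHaar_affineSubspace volume _ hne)

end Pool.Agent.ICB
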