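import Pool.Agent.ICB.St

/-!
# The regular icosahedron is labelled by its vertices (module RA)
-/

set_option autoImplicit false

namespace Pool.Agent.ICB

/-- A vertex in an edge is one of its ends. -/
theorem ra_vertex_mem_segment (hV : StRV) {i j k : Fin 12}
    (hk : reg k ∈ segment ℝ (reg i) (reg j)) : k = i ∨ k = j := by
  have hi : reg i ∈ Ico := (hV.2.1 i).subset rfl
  have hj : reg j ∈ Ico := (hV.2.1 j).subset rfl
  have hext : reg k ∈ (Ico).extremePoints ℝ :=
    exposedPoints_subset_extremePoints
      (mem_exposedPoints_iff_exposed_singleton.2 (hV.2.1 k))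
  rcases (mem_extremePoints_iff_forall_segment.1 hext).2 (reg i) hi (reg j) hj hk with h | h
  · exact Or.inl (hV.1 h.symm)
  · exact Or.inr (hV.1 h.symm)

theorem t_RA (_hG : StGEN) (hV : StRV) (hF : StRF) (hE : StRE) (hC : StRC) : StRA := by
  have hull : Ico = convexHull ℝ (Set.range reg) := by
    show convexHull ℝ ((regSet : Finset E3) : Set E3) = _
    rw [regSet, Finset.coe_image, Finset.coe_univ, Set.image_univ]
  refine
    { hull_eq := hull
      inj := hV.1
      vertex := hV.2.1
      face_exposed := fun f => (hF f).1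
      mem_face := fun f i => (hF f).2 i
      cover := fun F hFe hne => hC F hFe hne
      edge := ?_ }
  intro i j hij
  refine ⟨fun h => ?_, fun h => hE i j h⟩
  have hne : segment ℝ (reg i) (reg j) ≠ Ico := by
    intro heq
    obtain ⟨k, hki, hkj⟩ : ∃ k : Fin 12, k ≠ i ∧ k ≠ j := by
      have key : ∀ i j : Fin 12, ∃ k : Fin 12, k ≠ i ∧ k ≠ j := by decide
      exact key i j
    have hk : reg k ∈ segment ℝ (reg i) (reg j) := by
      rw [heq]
      exact (hV.2.1 k).subset rfl
    rcases ra_vertex_mem_segment hV hk with h1 | h1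
    · exact hki h1
    · exact hkj h1
  obtain ⟨f, hf⟩ := hC _ h hne
  refine ⟨hij, f, ?_, ?_⟩
  · exact ((hF f).2 i).1 (hf (left_mem_segment ℝ _ _))
  · exact ((hF f).2 j).1 (hf (right_mem_segment ℝ _ _))

end Pool.Agent.ICB
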