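import Pool.Agent.ICB.St

/-!
# RC: every proper exposed face of the regular icosahedron lies in a triangle
-/

set_option autoImplicit false

open scoped RealInnerProductSpace

namespace Pool.Agent.ICB

/-- The values of the functional with coefficients `x, y, z` at the twelve vertices; `X, Y, Z`
stand for the golden ratio times `x, y, z`. -/
def rcV (x y z X Y Z : ℝ) : Fin 12 → ℝ :=
  ![y + Z, -y + Z, x + Y, -x + Y, X + z, X - z, -y - Z, y - Z, -x - Y, x - Y, -X - z, -X + z]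

/-- The vertices where the functional is maximal lie in one triangle. -/
def RcOk (x y z X Y Z : ℝ) : Prop :=
  ∃ f : Fin 20, ∀ i : Fin 12, (∀ j, rcV x y z X Y Z j ≤ rcV x y z X Y Z i) →
    ∃ k, tri f k = i

theorem rc_close {x y z X Y Z : ℝ} (f : Fin 20)
    (hf : ∀ i : Fin 12, (¬ ∃ k, tri f k = i) →
        y + Z ≤ rcV x y z X Y Z i → -y + Z ≤ rcV x y z X Y Z i →
        x + Y ≤ rcV x y z X Y Z i → -x + Y ≤ rcV x y z X Y Z i →
        X + z ≤ rcV x y z X Y Z i → X - z ≤ rcV x y z X Y Z i →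
        -y - Z ≤ rcV x y z X Y Z i → y - Z ≤ rcV x y z X Y Z i →
        -x - Y ≤ rcV x y z X Y Z i → x - Y ≤ rcV x y z X Y Z i →
        -X - z ≤ rcV x y z X Y Z i → -X + z ≤ rcV x y z X Y Z i → False) :
    RcOk x y z X Y Z := by
  refine ⟨f, fun i hi => ?_⟩
  by_contra hc
  exact hf i hc (hi 0) (hi 1) (hi 2) (hi 3) (hi 4) (hi 5) (hi 6)
      (hi 7) (hi 8) (hi 9) (hi 10) (hi 11)

theorem rc_mmm {x y z X Y Z : ℝ} (hx : x < 0) (hX : X < x)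
    (hy : y < 0) (hY : Y < y) (hz : z < 0) (hZ : Z < z) : RcOk x y z X Y Z := by
  refine rc_close 10 ?_
  intro i hi g0 g1 g2 g3 g4 g5 g6 g7 g8 g9 g10 g11
  fin_cases i <;> simp [rcV] at g0 g1 g2 g3 g4 g5 g6 g7 g8 g9 g10 g11 <;>
    first | (exact hi (by decide)) | linarith

theorem rc_mm0 {x y z X Y Z : ℝ} (hx : x < 0) (hX : X < x)
    (hy : y < 0) (hY : Y < y) (hz : z = 0) (hZ : Z = 0) : RcOk x y z X Y Z := by
  refine rc_close 18 ?_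
  intro i hi g0 g1 g2 g3 g4 g5 g6 g7 g8 g9 g10 g11
  fin_cases i <;> simp [rcV] at g0 g1 g2 g3 g4 g5 g6 g7 g8 g9 g10 g11 <;>
    first | (exact hi (by decide)) | linarith

theorem rc_mmp {x y z X Y Z : ℝ} (hx : x < 0) (hX : X < x)
    (hy : y < 0) (hY : Y < y) (hz : 0 < z) (hZ : z < Z) : RcOk x y z X Y Z := by
  refine rc_close 2 ?_
  intro i hi g0 g1 g2 g3 g4 g5 g6 g7 g8 g9 g10 g11
  fin_cases i <;> simp [rcV] at g0 g1 g2 g3 g4 g5 g6 g7 g8 g9 g10 g11 <;>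
    first | (exact hi (by decide)) | linarith

theorem rc_m0m {x y z X Y Z : ℝ} (hx : x < 0) (hX : X < x)
    (hy : y = 0) (hY : Y = 0) (hz : z < 0) (hZ : Z < z) : RcOk x y z X Y Z := by
  refine rc_close 14 ?_
  intro i hi g0 g1 g2 g3 g4 g5 g6 g7 g8 g9 g10 g11
  fin_cases i <;> simp [rcV] at g0 g1 g2 g3 g4 g5 g6 g7 g8 g9 g10 g11 <;>
    first | (exact hi (by decide)) | linarith

theorem rc_m00 {x y z X Y Z : ℝ} (hx : x < 0) (hX : X < x)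
    (hy : y = 0) (hY : Y = 0) (hz : z = 0) (hZ : Z = 0) : RcOk x y z X Y Z := by
  refine rc_close 18 ?_
  intro i hi g0 g1 g2 g3 g4 g5 g6 g7 g8 g9 g10 g11
  fin_cases i <;> simp [rcV] at g0 g1 g2 g3 g4 g5 g6 g7 g8 g9 g10 g11 <;>
    first | (exact hi (by decide)) | linarith

theorem rc_m0p {x y z X Y Z : ℝ} (hx : x < 0) (hX : X < x)
    (hy : y = 0) (hY : Y = 0) (hz : 0 < z) (hZ : z < Z) : RcOk x y z X Y Z := by
  refine rc_close 5 ?_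
  intro i hi g0 g1 g2 g3 g4 g5 g6 g7 g8 g9 g10 g11
  fin_cases i <;> simp [rcV] at g0 g1 g2 g3 g4 g5 g6 g7 g8 g9 g10 g11 <;>
    first | (exact hi (by decide)) | linarith

theorem rc_mpm {x y z X Y Z : ℝ} (hx : x < 0) (hX : X < x)
    (hy : 0 < y) (hY : y < Y) (hz : z < 0) (hZ : Z < z) : RcOk x y z X Y Z := by
  refine rc_close 3 ?_
  intro i hi g0 g1 g2 g3 g4 g5 g6 g7 g8 g9 g10 g11
  fin_cases i <;> simp [rcV] at g0 g1 g2 g3 g4 g5 g6 g7 g8 g9 g10 g11 <;>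
    first | (exact hi (by decide)) | linarith

theorem rc_mp0 {x y z X Y Z : ℝ} (hx : x < 0) (hX : X < x)
    (hy : 0 < y) (hY : y < Y) (hz : z = 0) (hZ : Z = 0) : RcOk x y z X Y Z := by
  refine rc_close 19 ?_
  intro i hi g0 g1 g2 g3 g4 g5 g6 g7 g8 g9 g10 g11
  fin_cases i <;> simp [rcV] at g0 g1 g2 g3 g4 g5 g6 g7 g8 g9 g10 g11 <;>
    first | (exact hi (by decide)) | linarith

theorem rc_mpp {x y z X Y Z : ℝ} (hx : x < 0) (hX : X < x)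
    (hy : 0 < y) (hY : y < Y) (hz : 0 < z) (hZ : z < Z) : RcOk x y z X Y Z := by
  refine rc_close 11 ?_
  intro i hi g0 g1 g2 g3 g4 g5 g6 g7 g8 g9 g10 g11
  fin_cases i <;> simp [rcV] at g0 g1 g2 g3 g4 g5 g6 g7 g8 g9 g10 g11 <;>
    first | (exact hi (by decide)) | linarith

theorem rc_0mm {x y z X Y Z : ℝ} (hx : x = 0) (hX : X = 0)
    (hy : y < 0) (hY : Y < y) (hz : z < 0) (hZ : Z < z) : RcOk x y z X Y Z := by
  refine rc_close 16 ?_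
  intro i hi g0 g1 g2 g3 g4 g5 g6 g7 g8 g9 g10 g11
  fin_cases i <;> simp [rcV] at g0 g1 g2 g3 g4 g5 g6 g7 g8 g9 g10 g11 <;>
    first | (exact hi (by decide)) | linarith

theorem rc_0m0 {x y z X Y Z : ℝ} (hx : x = 0) (hX : X = 0)
    (hy : y < 0) (hY : Y < y) (hz : z = 0) (hZ : Z = 0) : RcOk x y z X Y Z := by
  refine rc_close 16 ?_
  intro i hi g0 g1 g2 g3 g4 g5 g6 g7 g8 g9 g10 g11
  fin_cases i <;> simp [rcV] at g0 g1 g2 g3 g4 g5 g6 g7 g8 g9 g10 g11 <;>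
    first | (exact hi (by decide)) | linarith

theorem rc_0mp {x y z X Y Z : ℝ} (hx : x = 0) (hX : X = 0)
    (hy : y < 0) (hY : Y < y) (hz : 0 < z) (hZ : z < Z) : RcOk x y z X Y Z := by
  refine rc_close 17 ?_
  intro i hi g0 g1 g2 g3 g4 g5 g6 g7 g8 g9 g10 g11
  fin_cases i <;> simp [rcV] at g0 g1 g2 g3 g4 g5 g6 g7 g8 g9 g10 g11 <;>
    first | (exact hi (by decide)) | linarith

theorem rc_00m {x y z X Y Z : ℝ} (hx : x = 0) (hX : X = 0)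
    (hy : y = 0) (hY : Y = 0) (hz : z < 0) (hZ : Z < z) : RcOk x y z X Y Z := by
  refine rc_close 14 ?_
  intro i hi g0 g1 g2 g3 g4 g5 g6 g7 g8 g9 g10 g11
  fin_cases i <;> simp [rcV] at g0 g1 g2 g3 g4 g5 g6 g7 g8 g9 g10 g11 <;>
    first | (exact hi (by decide)) | linarith

theorem rc_00p {x y z X Y Z : ℝ} (hx : x = 0) (hX : X = 0)
    (hy : y = 0) (hY : Y = 0) (hz : 0 < z) (hZ : z < Z) : RcOk x y z X Y Z := by
  refine rc_close 4 ?_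
  intro i hi g0 g1 g2 g3 g4 g5 g6 g7 g8 g9 g10 g11
  fin_cases i <;> simp [rcV] at g0 g1 g2 g3 g4 g5 g6 g7 g8 g9 g10 g11 <;>
    first | (exact hi (by decide)) | linarith

theorem rc_0pm {x y z X Y Z : ℝ} (hx : x = 0) (hX : X = 0)
    (hy : 0 < y) (hY : y < Y) (hz : z < 0) (hZ : Z < z) : RcOk x y z X Y Z := by
  refine rc_close 7 ?_
  intro i hi g0 g1 g2 g3 g4 g5 g6 g7 g8 g9 g10 g11
  fin_cases i <;> simp [rcV] at g0 g1 g2 g3 g4 g5 g6 g7 g8 g9 g10 g11 <;>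
    first | (exact hi (by decide)) | linarith

theorem rc_0p0 {x y z X Y Z : ℝ} (hx : x = 0) (hX : X = 0)
    (hy : 0 < y) (hY : y < Y) (hz : z = 0) (hZ : Z = 0) : RcOk x y z X Y Z := by
  refine rc_close 6 ?_
  intro i hi g0 g1 g2 g3 g4 g5 g6 g7 g8 g9 g10 g11
  fin_cases i <;> simp [rcV] at g0 g1 g2 g3 g4 g5 g6 g7 g8 g9 g10 g11 <;>
    first | (exact hi (by decide)) | linarith

theorem rc_0pp {x y z X Y Z : ℝ} (hx : x = 0) (hX : X = 0)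
    (hy : 0 < y) (hY : y < Y) (hz : 0 < z) (hZ : z < Z) : RcOk x y z X Y Z := by
  refine rc_close 6 ?_
  intro i hi g0 g1 g2 g3 g4 g5 g6 g7 g8 g9 g10 g11
  fin_cases i <;> simp [rcV] at g0 g1 g2 g3 g4 g5 g6 g7 g8 g9 g10 g11 <;>
    first | (exact hi (by decide)) | linarith

theorem rc_pmm {x y z X Y Z : ℝ} (hx : 0 < x) (hX : x < X)
    (hy : y < 0) (hY : Y < y) (hz : z < 0) (hZ : Z < z) : RcOk x y z X Y Z := by
  refine rc_close 1 ?_
  intro i hi g0 g1 g2 g3 g4 g5 g6 g7 g8 g9 g10 g11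
  fin_cases i <;> simp [rcV] at g0 g1 g2 g3 g4 g5 g6 g7 g8 g9 g10 g11 <;>
    first | (exact hi (by decide)) | linarith

theorem rc_pm0 {x y z X Y Z : ℝ} (hx : 0 < x) (hX : x < X)
    (hy : y < 0) (hY : Y < y) (hz : z = 0) (hZ : Z = 0) : RcOk x y z X Y Z := by
  refine rc_close 9 ?_
  intro i hi g0 g1 g2 g3 g4 g5 g6 g7 g8 g9 g10 g11
  fin_cases i <;> simp [rcV] at g0 g1 g2 g3 g4 g5 g6 g7 g8 g9 g10 g11 <;>
    first | (exact hi (by decide)) | linarith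

theorem rc_pmp {x y z X Y Z : ℝ} (hx : 0 < x) (hX : x < X)
    (hy : y < 0) (hY : Y < y) (hz : 0 < z) (hZ : z < Z) : RcOk x y z X Y Z := by
  refine rc_close 13 ?_
  intro i hi g0 g1 g2 g3 g4 g5 g6 g7 g8 g9 g10 g11
  fin_cases i <;> simp [rcV] at g0 g1 g2 g3 g4 g5 g6 g7 g8 g9 g10 g11 <;>
    first | (exact hi (by decide)) | linarith

theorem rc_p0m {x y z X Y Z : ℝ} (hx : 0 < x) (hX : x < X)
    (hy : y = 0) (hY : Y = 0) (hz : z < 0) (hZ : Z < z) : RcOk x y z X Y Z := by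
  refine rc_close 15 ?_
  intro i hi g0 g1 g2 g3 g4 g5 g6 g7 g8 g9 g10 g11
  fin_cases i <;> simp [rcV] at g0 g1 g2 g3 g4 g5 g6 g7 g8 g9 g10 g11 <;>
    first | (exact hi (by decide)) | linarith

theorem rc_p00 {x y z X Y Z : ℝ} (hx : 0 < x) (hX : x < X)
    (hy : y = 0) (hY : Y = 0) (hz : z = 0) (hZ : Z = 0) : RcOk x y z X Y Z := by
  refine rc_close 8 ?_
  intro i hi g0 g1 g2 g3 g4 g5 g6 g7 g8 g9 g10 g11
  fin_cases i <;> simp [rcV] at g0 g1 g2 g3 g4 g5 g6 g7 g8 g9 g10 g11 <;>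
    first | (exact hi (by decide)) | linarith

theorem rc_p0p {x y z X Y Z : ℝ} (hx : 0 < x) (hX : x < X)
    (hy : y = 0) (hY : Y = 0) (hz : 0 < z) (hZ : z < Z) : RcOk x y z X Y Z := by
  refine rc_close 4 ?_
  intro i hi g0 g1 g2 g3 g4 g5 g6 g7 g8 g9 g10 g11
  fin_cases i <;> simp [rcV] at g0 g1 g2 g3 g4 g5 g6 g7 g8 g9 g10 g11 <;>
    first | (exact hi (by decide)) | linarith

theorem rc_ppm {x y z X Y Z : ℝ} (hx : 0 < x) (hX : x < X)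
    (hy : 0 < y) (hY : y < Y) (hz : z < 0) (hZ : Z < z) : RcOk x y z X Y Z := by
  refine rc_close 12 ?_
  intro i hi g0 g1 g2 g3 g4 g5 g6 g7 g8 g9 g10 g11
  fin_cases i <;> simp [rcV] at g0 g1 g2 g3 g4 g5 g6 g7 g8 g9 g10 g11 <;>
    first | (exact hi (by decide)) | linarith

theorem rc_pp0 {x y z X Y Z : ℝ} (hx : 0 < x) (hX : x < X)
    (hy : 0 < y) (hY : y < Y) (hz : z = 0) (hZ : Z = 0) : RcOk x y z X Y Z := by
  refine rc_close 8 ?_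
  intro i hi g0 g1 g2 g3 g4 g5 g6 g7 g8 g9 g10 g11
  fin_cases i <;> simp [rcV] at g0 g1 g2 g3 g4 g5 g6 g7 g8 g9 g10 g11 <;>
    first | (exact hi (by decide)) | linarith

theorem rc_ppp {x y z X Y Z : ℝ} (hx : 0 < x) (hX : x < X)
    (hy : 0 < y) (hY : y < Y) (hz : 0 < z) (hZ : z < Z) : RcOk x y z X Y Z := by
  refine rc_close 0 ?_
  intro i hi g0 g1 g2 g3 g4 g5 g6 g7 g8 g9 g10 g11
  fin_cases i <;> simp [rcV] at g0 g1 g2 g3 g4 g5 g6 g7 g8 g9 g10 g11 <;>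
    first | (exact hi (by decide)) | linarith

/-- The combinatorial part. -/
theorem rc_key (x y z X Y Z : ℝ)
    (hx : (x < 0 ∧ X < x) ∨ (x = 0 ∧ X = 0) ∨ (0 < x ∧ x < X))
    (hy : (y < 0 ∧ Y < y) ∨ (y = 0 ∧ Y = 0) ∨ (0 < y ∧ y < Y))
    (hz : (z < 0 ∧ Z < z) ∨ (z = 0 ∧ Z = 0) ∨ (0 < z ∧ z < Z))
    (h0 : ¬(x = 0 ∧ y = 0 ∧ z = 0)) : RcOk x y z X Y Z := by
  rcases hx with ⟨hx, hX⟩ | ⟨hx, hX⟩ | ⟨hx, hX⟩ <;>
  rcases hy with ⟨hy, hY⟩ | ⟨hy, hY⟩ | ⟨hy, hY⟩ <;>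
  rcases hz with ⟨hz, hZ⟩ | ⟨hz, hZ⟩ | ⟨hz, hZ⟩
  · exact rc_mmm hx hX hy hY hz hZ
  · exact rc_mm0 hx hX hy hY hz hZ
  · exact rc_mmp hx hX hy hY hz hZ
  · exact rc_m0m hx hX hy hY hz hZ
  · exact rc_m00 hx hX hy hY hz hZ
  · exact rc_m0p hx hX hy hY hz hZ
  · exact rc_mpm hx hX hy hY hz hZ
  · exact rc_mp0 hx hX hy hY hz hZ
  · exact rc_mpp hx hX hy hY hz hZ
  · exact rc_0mm hx hX hy hY hz hZ
  · exact rc_0m0 hx hX hy hY hz hZ
  · exact rc_0mp hx hX hy hY hz hZ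
  · exact rc_00m hx hX hy hY hz hZ
  · exact absurd ⟨hx, hy, hz⟩ h0
  · exact rc_00p hx hX hy hY hz hZ
  · exact rc_0pm hx hX hy hY hz hZ
  · exact rc_0p0 hx hX hy hY hz hZ
  · exact rc_0pp hx hX hy hY hz hZ
  · exact rc_pmm hx hX hy hY hz hZ
  · exact rc_pm0 hx hX hy hY hz hZ
  · exact rc_pmp hx hX hy hY hz hZ
  · exact rc_p0m hx hX hy hY hz hZ
  · exact rc_p00 hx hX hy hY hz hZ
  · exact rc_p0p hx hX hy hY hz hZ
  · exact rc_ppm hx hX hy hY hz hZ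
  · exact rc_pp0 hx hX hy hY hz hZ
  · exact rc_ppp hx hX hy hY hz hZ

theorem rc_tri (t : ℝ) : (t < 0 ∧ Real.goldenRatio * t < t) ∨
    (t = 0 ∧ Real.goldenRatio * t = 0) ∨ (0 < t ∧ t < Real.goldenRatio * t) := by
  have h := Real.one_lt_goldenRatio
  rcases lt_trichotomy t 0 with ht | ht | ht
  · left
    exact ⟨ht, by nlinarith⟩
  · right; left
    exact ⟨ht, by rw [ht, mul_zero]⟩
  · right; right
    exact ⟨ht, by nlinarith⟩

/-- Values of a linear functional at the vertices. -/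
theorem rc_val (l : E3 →L[ℝ] ℝ) (i : Fin 12) :
    l (reg i) = rcV (l !₂[1, 0, 0]) (l !₂[0, 1, 0]) (l !₂[0, 0, 1])
      (Real.goldenRatio * l !₂[1, 0, 0]) (Real.goldenRatio * l !₂[0, 1, 0])
      (Real.goldenRatio * l !₂[0, 0, 1]) i := by
  have h : ∀ a b c : ℝ, l !₂[a, b, c]
      = a * l !₂[1, 0, 0] + b * l !₂[0, 1, 0] + c * l !₂[0, 0, 1] := by
    intro a b c
    have e : (!₂[a, b, c] : E3)
        = a • (!₂[1, 0, 0] : E3) + b • (!₂[0, 1, 0] : E3) + c • (!₂[0, 0, 1] : E3) := by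
      ext k
      fin_cases k <;> simp
    rw [e, map_add, map_add, map_smul, map_smul, map_smul]
    simp only [smul_eq_mul]
  generalize l !₂[1, 0, 0] = x at h ⊢
  generalize l !₂[0, 1, 0] = y at h ⊢
  generalize l !₂[0, 0, 1] = z at h ⊢
  fin_cases i <;> simp [reg, rcV, h] <;> ring

/-- **RC**. -/
theorem t_RC (hG : StGEN) (hV : StRV) : StRC := by
  intro F hF hne
  rcases F.eq_empty_or_nonempty with h | hn
  · exact ⟨0, by rw [h]; exact Set.empty_subset _⟩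
  obtain ⟨l, hl⟩ := hF hn
  have hlz : ¬(l !₂[1, 0, 0] = 0 ∧ l !₂[0, 1, 0] = 0 ∧ l !₂[0, 0, 1] = 0) := by
    rintro ⟨h1, h2, h3⟩
    apply hne
    have h0 : ∀ w : E3, l w = 0 := by
      intro w
      have e : w = w 0 • (!₂[1, 0, 0] : E3) + w 1 • (!₂[0, 1, 0] : E3)
          + w 2 • (!₂[0, 0, 1] : E3) := by
        ext k
        fin_cases k <;> simp
      rw [e, map_add, map_add, map_smul, map_smul, map_smul, h1, h2, h3]
      simp
    rw [hl]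
    ext w
    constructor
    · intro h
      exact h.1
    · intro h
      exact ⟨h, fun y _ => by rw [h0, h0]⟩
  obtain ⟨f, hf⟩ := rc_key _ _ _ _ _ _ (rc_tri (l !₂[1, 0, 0])) (rc_tri (l !₂[0, 1, 0]))
    (rc_tri (l !₂[0, 0, 1])) hlz
  refine ⟨f, ?_⟩
  have hFG := hG regSet F hF
  rw [hFG]
  apply convexHull_mono
  rintro w ⟨hwF, hwe⟩
  obtain ⟨i, rfl⟩ := hV.2.2 w hwe
  have hmax : ∀ j, l (reg j) ≤ l (reg i) := by
    intro j
    have hw : reg i ∈ {x | x ∈ Ico ∧ ∀ y ∈ Ico, l y ≤ l x} := by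
      rw [← hl]; exact hwF
    apply hw.2
    apply subset_convexHull
    exact Finset.mem_coe.2 (Finset.mem_image.2 ⟨j, Finset.mem_univ _, rfl⟩)
  obtain ⟨k, hk⟩ := hf i (fun j => by rw [← rc_val, ← rc_val]; exact hmax j)
  rw [← hk]
  fin_cases k <;> simp

end Pool.Agent.ICB
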