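import Pool.Agent.ICB.St

set_option autoImplicit false

open scoped RealInnerProductSpace
open MeasureTheory Measure

namespace Pool.Agent.ICB

namespace RE

/-- Rational parts of the coordinates of the regular icosahedron. -/
def ra : Fin 12 → Fin 3 → ℤ :=
  ![![0, 1, 0], ![0, -1, 0], ![1, 0, 0], ![-1, 0, 0], ![0, 0, 1], ![0, 0, -1],
    ![0, -1, 0], ![0, 1, 0], ![-1, 0, 0], ![1, 0, 0], ![0, 0, -1], ![0, 0, 1]]

/-- Coefficients of the golden ratio in the coordinates of the regular icosahedron. -/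
def rb : Fin 12 → Fin 3 → ℤ :=
  ![![0, 0, 1], ![0, 0, 1], ![0, 1, 0], ![0, 1, 0], ![1, 0, 0], ![1, 0, 0],
    ![0, 0, -1], ![0, 0, -1], ![0, -1, 0], ![0, -1, 0], ![-1, 0, 0], ![-1, 0, 0]]

/-- Rational part of the inner product. -/
def P (i k : Fin 12) : ℤ :=
  ra i 0 * ra k 0 + rb i 0 * rb k 0 + (ra i 1 * ra k 1 + rb i 1 * rb k 1) +
    (ra i 2 * ra k 2 + rb i 2 * rb k 2)

/-- Golden ratio part of the inner product. -/
def Q (i k : Fin 12) : ℤ :=
  ra i 0 * rb k 0 + rb i 0 * ra k 0 + rb i 0 * rb k 0 +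
    (ra i 1 * rb k 1 + rb i 1 * ra k 1 + rb i 1 * rb k 1) +
    (ra i 2 * rb k 2 + rb i 2 * ra k 2 + rb i 2 * rb k 2)

theorem reg_coord (i : Fin 12) (c : Fin 3) :
    reg i c = (ra i c : ℝ) + (rb i c : ℝ) * Real.goldenRatio := by
  fin_cases i <;> fin_cases c <;> simp [reg, ra, rb]

theorem inner_reg (i k : Fin 12) :
    ⟪reg i, reg k⟫ = (P i k : ℝ) + (Q i k : ℝ) * Real.goldenRatio := by
  have h : ⟪reg i, reg k⟫ = reg i 0 * reg k 0 + reg i 1 * reg k 1 + reg i 2 * reg k 2 := by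
    rw [PiLp.inner_apply, Fin.sum_univ_three]
    simp only [RCLike.inner_apply, conj_trivial]
    ring
  rw [h]
  simp only [reg_coord, P, Q]
  push_cast
  linear_combination ((rb i 0 : ℝ) * rb k 0 + rb i 1 * rb k 1 + rb i 2 * rb k 2) *
    Real.goldenRatio_sq

theorem table_self : ∀ i j : Fin 12, Adj i j →
    P i i + P j i = 2 ∧ Q i i + Q j i = 2 ∧ P i j + P j j = 2 ∧ Q i j + Q j j = 2 := by
  decide

theorem table_other : ∀ i j : Fin 12, Adj i j → ∀ k : Fin 12, k ≠ i → k ≠ j →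
    P i k + P j k ≤ 0 ∧ Q i k + Q j k ≤ 2 := by
  decide

theorem inner_sum_reg (i j k : Fin 12) :
    ⟪reg i + reg j, reg k⟫ = ((P i k + P j k : ℤ) : ℝ) +
      ((Q i k + Q j k : ℤ) : ℝ) * Real.goldenRatio := by
  rw [inner_add_left, inner_reg, inner_reg]
  push_cast
  ring

end RE

open RE in
/-- RE: the edges of the regular icosahedron are exposed. -/
theorem t_RE : StRE := by
  intro i j hij _
  set M : ℝ := 2 + 2 * Real.goldenRatio with hM
  have hi : ⟪reg i + reg j, reg i⟫ = M := by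
    rw [inner_sum_reg, (table_self i j hij).1, (table_self i j hij).2.1, hM]; norm_num
  have hj : ⟪reg i + reg j, reg j⟫ = M := by
    rw [inner_sum_reg, (table_self i j hij).2.2.1, (table_self i j hij).2.2.2, hM]; norm_num
  have hk : ∀ k : Fin 12, k ≠ i → k ≠ j → ⟪reg i + reg j, reg k⟫ < M := by
    intro k h1 h2
    obtain ⟨h3, h4⟩ := table_other i j hij k h1 h2
    rw [inner_sum_reg, hM]
    have h3' : ((P i k + P j k : ℤ) : ℝ) ≤ 0 := by exact_mod_cast h3
    have h4' : ((Q i k + Q j k : ℤ) : ℝ) ≤ 2 := by exact_mod_cast h4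
    have h5 := mul_le_mul_of_nonneg_right h4' Real.goldenRatio_pos.le
    linarith
  have hle : ∀ k : Fin 12, ⟪reg i + reg j, reg k⟫ ≤ M := by
    intro k
    by_cases h1 : k = i
    · rw [h1, hi]
    by_cases h2 : k = j
    · rw [h2, hj]
    exact (hk k h1 h2).le
  have hleS : ∀ z ∈ (regSet : Set E3), ⟪reg i + reg j, z⟫ ≤ M := by
    intro z hz
    simp only [regSet, Finset.coe_image, Finset.coe_univ, Set.image_univ, Set.mem_range] at hz
    obtain ⟨k, rfl⟩ := hz
    exact hle k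
  have hleI : ∀ z ∈ Ico, ⟪reg i + reg j, z⟫ ≤ M := by
    intro z hz
    have hc : Convex ℝ {z : E3 | ⟪reg i + reg j, z⟫ ≤ M} := by
      have h := convex_halfSpace_le (𝕜 := ℝ) (β := ℝ) (innerSL ℝ (reg i + reg j)).isLinear M
      exact h
    exact convexHull_min hleS hc hz
  have hmem : ∀ k : Fin 12, reg k ∈ (regSet : Set E3) := by
    intro k; simp [regSet]
  refine ⟨innerSL ℝ (reg i + reg j), ?_⟩
  ext z
  simp only [innerSL_apply_apply, Set.mem_ofPred_eq]
  constructor
  · intro hz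
    have hzI : z ∈ Ico := by
      have : segment ℝ (reg i) (reg j) ⊆ Ico :=
        (convex_convexHull ℝ _).segment_subset (subset_convexHull ℝ _ (hmem i))
          (subset_convexHull ℝ _ (hmem j))
      exact this hz
    refine ⟨hzI, fun y hy => ?_⟩
    obtain ⟨a, b, ha, hb, hab, rfl⟩ := hz
    rw [inner_add_right, real_inner_smul_right, real_inner_smul_right, hi, hj, ← add_mul, hab,
      one_mul]
    exact hleI y hy
  · rintro ⟨hzI, hz⟩
    have hMz : M ≤ ⟪reg i + reg j, z⟫ := by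
      rw [← hi]
      exact hz _ (subset_convexHull ℝ _ (hmem i))
    obtain ⟨c, hc0, hc1, rfl⟩ := Finset.mem_convexHull'.1 hzI
    have hsum : ∑ y ∈ regSet, c y * (M - ⟪reg i + reg j, y⟫) ≤ 0 := by
      have h1 : ⟪reg i + reg j, ∑ y ∈ regSet, c y • y⟫ =
          ∑ y ∈ regSet, c y * ⟪reg i + reg j, y⟫ := by
        rw [inner_sum]
        exact Finset.sum_congr rfl fun y _ => real_inner_smul_right _ _ _
      rw [h1] at hMz
      have h2 : ∑ y ∈ regSet, c y * (M - ⟪reg i + reg j, y⟫) =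
          (∑ y ∈ regSet, c y) * M - ∑ y ∈ regSet, c y * ⟪reg i + reg j, y⟫ := by
        rw [Finset.sum_mul, ← Finset.sum_sub_distrib]
        exact Finset.sum_congr rfl fun y _ => by ring
      rw [h2, hc1, one_mul]
      linarith
    have hnn : ∀ y ∈ regSet, 0 ≤ c y * (M - ⟪reg i + reg j, y⟫) := fun y hy =>
      mul_nonneg (hc0 y hy) (sub_nonneg.2 (hleS y (by exact_mod_cast hy)))
    have hzero := (Finset.sum_eq_zero_iff_of_nonneg hnn).1
      (le_antisymm hsum (Finset.sum_nonneg hnn))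
    have hseg : ∀ y ∈ regSet, c y ≠ 0 → y ∈ segment ℝ (reg i) (reg j) := by
      intro y hy hcy
      have h1 := (mul_eq_zero.1 (hzero y hy)).resolve_left hcy
      obtain ⟨k, -, rfl⟩ := Finset.mem_image.1 hy
      by_cases h2 : k = i
      · rw [h2]; exact left_mem_segment ℝ _ _
      by_cases h3 : k = j
      · rw [h3]; exact right_mem_segment ℝ _ _
      have h4 := hk k h2 h3
      linarith
    have e1 : ∑ y ∈ regSet, c y • y = ∑ y ∈ regSet with c y ≠ 0, c y • y := by
      refine (Finset.sum_filter_of_ne ?_).symm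
      intro y _ h1 h2
      exact h1 (by rw [h2, zero_smul])
    have e2 : ∑ y ∈ regSet with c y ≠ 0, c y = 1 := by
      rw [Finset.sum_filter_ne_zero, hc1]
    rw [e1]
    refine (convex_segment (reg i) (reg j)).sum_mem ?_ e2 ?_
    · intro y hy; exact hc0 y (Finset.mem_filter.1 hy).1
    · intro y hy; exact hseg y (Finset.mem_filter.1 hy).1 (Finset.mem_filter.1 hy).2

end Pool.Agent.ICB
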