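import Pool.Agent.ICB.St

set_option autoImplicit false

open scoped RealInnerProductSpace

namespace Pool.Agent.ICB

namespace RFm

/-- Rational part of the coordinates of the vertices. -/
def pc : Fin 12 → Fin 3 → ℤ :=
  ![![0, 1, 0], ![0, -1, 0], ![1, 0, 0], ![-1, 0, 0], ![0, 0, 1], ![0, 0, -1],
    ![0, -1, 0], ![0, 1, 0], ![-1, 0, 0], ![1, 0, 0], ![0, 0, -1], ![0, 0, 1]]

/-- Coefficient of the golden ratio in the coordinates of the vertices. -/
def qc : Fin 12 → Fin 3 → ℤ :=
  ![![0, 0, 1], ![0, 0, 1], ![0, 1, 0], ![0, 1, 0], ![1, 0, 0], ![1, 0, 0],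
    ![0, 0, -1], ![0, 0, -1], ![0, -1, 0], ![0, -1, 0], ![-1, 0, 0], ![-1, 0, 0]]

theorem reg_apply (i : Fin 12) (k : Fin 3) :
    reg i k = (pc i k : ℝ) + (qc i k : ℝ) * Real.goldenRatio := by
  fin_cases i <;> fin_cases k <;> simp [reg, pc, qc]

/-- Rational part of the value at vertex `i` of the functional of the triangle `f`. -/
def U (f : Fin 20) (i : Fin 12) : ℤ :=
  ∑ k : Fin 3, ∑ m : Fin 3, (pc (tri f k) m * pc i m + qc (tri f k) m * qc i m)

/-- Coefficient of the golden ratio in the value at vertex `i` of the functional of `f`. -/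
def V (f : Fin 20) (i : Fin 12) : ℤ :=
  ∑ k : Fin 3, ∑ m : Fin 3,
    (pc (tri f k) m * qc i m + qc (tri f k) m * pc i m + qc (tri f k) m * qc i m)

theorem UV_table : ∀ (f : Fin 20) (i : Fin 12),
    ((∃ k, tri f k = i) ∧ U f i = 2 ∧ V f i = 3) ∨
      ((¬ ∃ k, tri f k = i) ∧ U f i ≤ 0 ∧ V f i ≤ 1) := by
  decide +kernel

theorem phi_sq : Real.goldenRatio ^ 2 = Real.goldenRatio + 1 := Real.goldenRatio_sq

/-- The functional of the triangle `f`. -/
noncomputable def lf (f : Fin 20) : E3 →L[ℝ] ℝ :=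
  innerSL ℝ (∑ k, reg (tri f k))

theorem inner_reg (i j : Fin 12) :
    ⟪reg i, reg j⟫ = ∑ m : Fin 3, ((pc i m * pc j m + qc i m * qc j m : ℤ) : ℝ) +
      (∑ m : Fin 3, ((pc i m * qc j m + qc i m * pc j m + qc i m * qc j m : ℤ) : ℝ)) *
        Real.goldenRatio := by
  rw [PiLp.inner_apply, Finset.sum_mul, ← Finset.sum_add_distrib]
  refine Finset.sum_congr rfl fun m _ => ?_
  rw [reg_apply i m, reg_apply j m]
  simp only [RCLike.inner_apply, conj_trivial]
  push_cast
  linear_combination ((qc i m : ℝ) * (qc j m : ℝ)) * phi_sq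

theorem lf_reg (f : Fin 20) (i : Fin 12) :
    lf f (reg i) = (U f i : ℝ) + (V f i : ℝ) * Real.goldenRatio := by
  have h1 : lf f (reg i) = ∑ k, ⟪reg (tri f k), reg i⟫ := by
    simp only [lf, innerSL_apply_apply, sum_inner]
  rw [h1]
  simp only [inner_reg, U, V]
  rw [Finset.sum_add_distrib, ← Finset.sum_mul]
  push_cast
  rfl

theorem lf_table (f : Fin 20) (i : Fin 12) :
    ((∃ k, tri f k = i) ∧ lf f (reg i) = 3 * Real.goldenRatio + 2) ∨
      ((¬ ∃ k, tri f k = i) ∧ lf f (reg i) < 3 * Real.goldenRatio + 2) := by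
  have hφ : 0 < Real.goldenRatio := Real.goldenRatio_pos
  rcases UV_table f i with ⟨h, h1, h2⟩ | ⟨h, h1, h2⟩
  · left
    refine ⟨h, ?_⟩
    rw [lf_reg, h1, h2]
    push_cast
    ring
  · right
    refine ⟨h, ?_⟩
    rw [lf_reg]
    have e1 : (U f i : ℝ) ≤ 0 := by exact_mod_cast h1
    have e2 : (V f i : ℝ) ≤ 1 := by exact_mod_cast h2
    have e3 : (V f i : ℝ) * Real.goldenRatio ≤ 1 * Real.goldenRatio :=
      mul_le_mul_of_nonneg_right e2 hφ.le
    linarith

/-- The part of a polytope where a functional takes its maximum over the vertices. -/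
theorem mem_hull_of_eq (A : Finset E3) (l : E3 →L[ℝ] ℝ) (M : ℝ) (hM : ∀ a ∈ A, l a ≤ M)
    (z : E3) (hz : z ∈ convexHull ℝ (A : Set E3)) (hl : l z = M) :
    z ∈ convexHull ℝ {a | a ∈ A ∧ l a = M} := by
  classical
  obtain ⟨c, hc0, hc1, hcz⟩ := (Finset.mem_convexHull').1 hz
  have hsum : ∑ a ∈ A, c a * (M - l a) = 0 := by
    have e : l z = ∑ a ∈ A, c a * l a := by
      rw [← hcz, map_sum]
      refine Finset.sum_congr rfl fun a _ => ?_
      rw [map_smul, smul_eq_mul]
    have e2 : ∑ a ∈ A, c a * (M - l a) = (∑ a ∈ A, c a) * M - ∑ a ∈ A, c a * l a := by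
      rw [Finset.sum_mul, ← Finset.sum_sub_distrib]
      exact Finset.sum_congr rfl fun a _ => by ring
    rw [e2, hc1, ← e, hl]
    ring
  have hzero : ∀ a ∈ A, c a * (M - l a) = 0 :=
    (Finset.sum_eq_zero_iff_of_nonneg
      (fun a ha => mul_nonneg (hc0 a ha) (sub_nonneg.2 (hM a ha)))).1 hsum
  have hc : ∀ a ∈ A, l a ≠ M → c a = 0 := by
    intro a ha hne
    rcases mul_eq_zero.1 (hzero a ha) with h | h
    · exact h
    · exact absurd (by linarith) hne
  have hset : {a | a ∈ A ∧ l a = M} = ((A.filter fun a => l a = M : Finset E3) : Set E3) := by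
    ext a
    simp
  rw [hset]
  refine (Finset.mem_convexHull').2 ⟨c, fun a ha => hc0 a (Finset.mem_filter.1 ha).1, ?_, ?_⟩
  · rw [← hc1]
    refine Finset.sum_subset (Finset.filter_subset _ _) fun a ha hna => ?_
    refine hc a ha fun h => hna ?_
    exact Finset.mem_filter.2 ⟨ha, h⟩
  · rw [← hcz]
    refine Finset.sum_subset (Finset.filter_subset _ _) fun a ha hna => ?_
    have h0 : c a = 0 := by
      refine hc a ha fun h => hna ?_
      exact Finset.mem_filter.2 ⟨ha, h⟩
    rw [h0, zero_smul]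

theorem mem_regSet (i : Fin 12) : reg i ∈ regSet := by
  unfold regSet
  exact Finset.mem_image_of_mem _ (Finset.mem_univ i)

theorem lf_face (f : Fin 20) {z : E3} (hz : z ∈ face reg f) :
    lf f z = 3 * Real.goldenRatio + 2 := by
  have hv : ∀ k, lf f (reg (tri f k)) = 3 * Real.goldenRatio + 2 := by
    intro k
    rcases lf_table f (tri f k) with ⟨_, h⟩ | ⟨h, _⟩
    · exact h
    · exact absurd ⟨k, rfl⟩ h
  have hsub : face reg f ⊆ {x : E3 | lf f x = 3 * Real.goldenRatio + 2} := by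
    refine convexHull_min ?_ (convex_hyperplane (lf f).toLinearMap.isLinear _)
    intro x hx
    simp only [Set.mem_insert_iff, Set.mem_singleton_iff] at hx
    rcases hx with rfl | rfl | rfl
    · exact hv 0
    · exact hv 1
    · exact hv 2
  exact hsub hz

theorem lf_le (f : Fin 20) {z : E3} (hz : z ∈ Ico) :
    lf f z ≤ 3 * Real.goldenRatio + 2 := by
  have hsub : Ico ⊆ {x : E3 | lf f x ≤ 3 * Real.goldenRatio + 2} := by
    refine convexHull_min ?_ (convex_halfSpace_le (lf f).toLinearMap.isLinear _)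
    intro x hx
    have hx' : x ∈ regSet := hx
    unfold regSet at hx'
    obtain ⟨i, _, rfl⟩ := Finset.mem_image.1 hx'
    rcases lf_table f i with ⟨_, h⟩ | ⟨_, h⟩
    · exact h.le
    · exact h.le
  exact hsub hz

theorem face_sub (f : Fin 20) : face reg f ⊆ Ico := by
  refine convexHull_mono ?_
  intro x hx
  simp only [Set.mem_insert_iff, Set.mem_singleton_iff] at hx
  rcases hx with rfl | rfl | rfl
  · exact mem_regSet _
  · exact mem_regSet _
  · exact mem_regSet _

theorem vert_mem (f : Fin 20) (k : Fin 3) : reg (tri f k) ∈ face reg f := by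
  refine subset_convexHull ℝ _ ?_
  fin_cases k
  · exact Or.inl rfl
  · exact Or.inr (Or.inl rfl)
  · exact Or.inr (Or.inr rfl)

theorem mem_face_of_eq (f : Fin 20) {z : E3} (hz : z ∈ Ico)
    (hl : lf f z = 3 * Real.goldenRatio + 2) : z ∈ face reg f := by
  have h := mem_hull_of_eq regSet (lf f) (3 * Real.goldenRatio + 2)
    (fun a ha => lf_le f (subset_convexHull ℝ _ ha)) z hz hl
  refine convexHull_mono ?_ h
  rintro a ⟨ha, hla⟩
  unfold regSet at ha
  obtain ⟨i, _, rfl⟩ := Finset.mem_image.1 ha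
  rcases lf_table f i with ⟨⟨k, rfl⟩, _⟩ | ⟨_, h'⟩
  · fin_cases k
    · exact Or.inl rfl
    · exact Or.inr (Or.inl rfl)
    · exact Or.inr (Or.inr rfl)
  · exact absurd hla h'.ne

end RFm

open RFm in
/-- **RF**: the twenty triangles of the regular icosahedron are exposed faces. -/
theorem t_RF : StRF := by
  intro f
  refine ⟨fun _ => ⟨lf f, ?_⟩, fun i => ⟨fun hi => ?_, ?_⟩⟩
  · ext z
    constructor
    · intro hz
      refine ⟨face_sub f hz, fun y hy => ?_⟩
      rw [lf_face f hz]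
      exact lf_le f hy
    · rintro ⟨hz, hmax⟩
      refine mem_face_of_eq f hz (le_antisymm (lf_le f hz) ?_)
      rw [← lf_face f (vert_mem f 0)]
      exact hmax _ (face_sub f (vert_mem f 0))
  · have h1 := lf_face f hi
    rcases lf_table f i with ⟨h, _⟩ | ⟨_, h'⟩
    · exact h
    · exact absurd h1 h'.ne
  · rintro ⟨k, rfl⟩
    exact vert_mem f k

end Pool.Agent.ICB
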