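import Pool.Agent.ICB.St

/-!
# Vertices of the regular icosahedron (module RV of ICB, MP_fa01f0_gt)
-/

set_option autoImplicit false

open scoped RealInnerProductSpace
open MeasureTheory Measure

namespace Pool.Agent.ICB

namespace RVx

/-- the five values of the coordinates -/
noncomputable def val : Fin 5 → ℝ :=
  ![0, 1, -1, Real.goldenRatio, -Real.goldenRatio]

/-- codes of the coordinates -/
def code : Fin 12 → Fin 3 → Fin 5 :=
  ![![0, 1, 3], ![0, 2, 3], ![1, 3, 0], ![2, 3, 0], ![3, 0, 1], ![3, 0, 2],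
    ![0, 2, 4], ![0, 1, 4], ![2, 4, 0], ![1, 4, 0], ![4, 0, 2], ![4, 0, 1]]

theorem code_inj : Function.Injective code := by decide

theorem val_inj : Function.Injective val := by
  intro i j h
  have h1 := Real.one_lt_goldenRatio
  fin_cases i <;> fin_cases j <;> first
    | rfl
    | (exfalso; simp [val] at h <;> first | linarith | linarith [Real.sqrt_nonneg 5])

theorem reg_val (i : Fin 12) (k : Fin 3) : reg i k = val (code i k) := by
  fin_cases i <;> fin_cases k <;> simp [reg, val, code]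

theorem reg_inj : Function.Injective reg := by
  intro i j h
  apply code_inj
  funext k
  apply val_inj
  rw [← reg_val, ← reg_val, h]

theorem norm_reg (i : Fin 12) : ‖reg i‖ ^ 2 = Real.goldenRatio ^ 2 + 1 := by
  rw [EuclideanSpace.norm_sq_eq, Fin.sum_univ_three]
  simp only [Real.norm_eq_abs, sq_abs, reg_val]
  fin_cases i <;> simp [val, code] <;> ring

theorem norm_le (x : E3) (hx : x ∈ Ico) : ‖x‖ ^ 2 ≤ Real.goldenRatio ^ 2 + 1 := by
  have h0 : (0 : ℝ) ≤ Real.goldenRatio ^ 2 + 1 := by positivity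
  have hsub : Ico ⊆ Metric.closedBall (0 : E3) (Real.sqrt (Real.goldenRatio ^ 2 + 1)) := by
    apply convexHull_min _ (convex_closedBall _ _)
    intro y hy
    obtain ⟨i, -, rfl⟩ := Finset.mem_image.1 (Finset.mem_coe.1 hy)
    rw [mem_closedBall_zero_iff]
    apply Real.le_sqrt_of_sq_le
    rw [norm_reg]
  have h1 := mem_closedBall_zero_iff.1 (hsub hx)
  calc ‖x‖ ^ 2 ≤ (Real.sqrt (Real.goldenRatio ^ 2 + 1)) ^ 2 :=
        pow_le_pow_left₀ (norm_nonneg _) h1 2
    _ = _ := Real.sq_sqrt h0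

theorem reg_mem (i : Fin 12) : reg i ∈ Ico :=
  subset_convexHull ℝ _ (Finset.mem_coe.2 (Finset.mem_image_of_mem _ (Finset.mem_univ i)))

theorem exposed (i : Fin 12) : IsExposed ℝ Ico {reg i} := by
  intro _
  refine ⟨innerSL ℝ (reg i), ?_⟩
  have hself : ⟪reg i, reg i⟫ = Real.goldenRatio ^ 2 + 1 := by
    rw [real_inner_self_eq_norm_sq, norm_reg]
  ext x
  simp only [Set.mem_singleton_iff, Set.mem_ofPred_eq, innerSL_apply_apply]
  constructor
  · rintro rfl
    refine ⟨reg_mem i, fun y hy => ?_⟩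
    have h1 := norm_le y hy
    have h2 : (0 : ℝ) ≤ ‖reg i - y‖ ^ 2 := sq_nonneg _
    rw [norm_sub_sq_real, norm_reg] at h2
    rw [hself]
    linarith
  · rintro ⟨hx, h⟩
    have h1 := norm_le x hx
    have h2 := h (reg i) (reg_mem i)
    rw [hself] at h2
    have h3 : ‖reg i - x‖ ^ 2 ≤ 0 := by
      rw [norm_sub_sq_real, norm_reg]
      linarith
    have h4 : ‖reg i - x‖ = 0 := by
      have := sq_nonneg ‖reg i - x‖
      exact pow_eq_zero_iff (two_ne_zero) |>.1 (le_antisymm h3 this)
    exact (sub_eq_zero.1 (norm_eq_zero.1 h4)).symm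

end RVx

theorem t_RV : StRV := by
  refine ⟨RVx.reg_inj, RVx.exposed, fun y hy => ?_⟩
  have h1 := mem_exposedPoints_iff_exposed_singleton.2 hy
  have h2 := exposedPoints_subset_extremePoints h1
  have h3 := extremePoints_convexHull_subset h2
  obtain ⟨i, -, hi⟩ := Finset.mem_image.1 (Finset.mem_coe.1 h3)
  exact ⟨i, hi.symm⟩

end Pool.Agent.ICB
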