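import Pool.Agent.ICB.St

/-!
# ICB, module SGN: adjacent triangles are coherently oriented
-/

set_option autoImplicit false

open scoped RealInnerProductSpace

namespace Pool.Agent.ICB

/-- The determinant of three vectors of three-space, written out. -/
def sgnD (u v t : E3) : ℝ :=
  u 0 * (v 1 * t 2 - v 2 * t 1) - u 1 * (v 0 * t 2 - v 2 * t 0) + u 2 * (v 0 * t 1 - v 1 * t 0)

theorem sgn_dt (o : E3) (w : Fin 12 → E3) (f : Fin 20) (a : Fin 3) :
    dt o w f = sgnD (w (tri f a) - o) (w (tri f (a + 1)) - o) (w (tri f (a + 2)) - o) := by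
  have h0 : dt o w f =
      sgnD (w (tri f 0) - o) (w (tri f 1) - o) (w (tri f 2) - o) := by
    unfold dt sgnD
    rw [Matrix.det_fin_three]
    simp only [Matrix.of_apply, PiLp.sub_apply]
    ring
  rw [h0]
  have e1 : ((0 : Fin 3) + 1) = 1 := by decide
  have e2 : ((0 : Fin 3) + 2) = 2 := by decide
  have e3 : ((1 : Fin 3) + 1) = 2 := by decide
  have e4 : ((1 : Fin 3) + 2) = 0 := by decide
  have e5 : ((2 : Fin 3) + 1) = 0 := by decide
  have e6 : ((2 : Fin 3) + 2) = 1 := by decide
  have ha : a = 0 ∨ a = 1 ∨ a = 2 := by revert a; decide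
  rcases ha with h | h | h
  · subst h
    rw [e1, e2]
  · subst h
    rw [e3, e4]
    unfold sgnD
    ring
  · subst h
    rw [e5, e6]
    unfold sgnD
    ring

theorem sgn_cramer (A B K L : E3) :
    sgnD A B K • L = sgnD L B K • A + sgnD A L K • B + sgnD A B L • K := by
  ext i
  have hi : i = 0 ∨ i = 1 ∨ i = 2 := by revert i; decide
  simp only [PiLp.add_apply, PiLp.smul_apply, smul_eq_mul]
  unfold sgnD
  rcases hi with h | h | h <;> subst h <;> ring

theorem sgn_notin : ∀ (f g : Fin 20) (a b : Fin 3), tri f a = tri g (b + 1) →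
    tri f (a + 1) = tri g b →
      (¬ ∃ k, tri f k = tri g (b + 2)) ∧ ¬ ∃ k, tri g k = tri f (a + 2) := by
  decide +kernel

/-- **SGN**. -/
theorem t_SGN (h : StSUP) (hD : StDET) : StSGN := by
  intro P w o hw ho f g a b h1 h2
  obtain ⟨hn1, hn2⟩ := sgn_notin f g a b h1 h2
  obtain ⟨l, m, hlo, hl⟩ := h P w o hw ho f
  obtain ⟨l', m', hlo', hl'⟩ := h P w o hw ho g
  have hDf := hD P w o hw ho f
  have hlin : ∀ k, l (w (tri f k)) = m := by
    intro k
    rcases hl (tri f k) with h3 | h3
    · exact h3.1
    · exact absurd ⟨k, rfl⟩ h3.2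
  have hlin' : ∀ k, l' (w (tri g k)) = m' := by
    intro k
    rcases hl' (tri g k) with h3 | h3
    · exact h3.1
    · exact absurd ⟨k, rfl⟩ h3.2
  have hlL : l (w (tri g (b + 2))) < m := by
    rcases hl (tri g (b + 2)) with h3 | h3
    · exact absurd h3.2 hn1
    · exact h3.1
  have hlK : l' (w (tri f (a + 2))) < m' := by
    rcases hl' (tri f (a + 2)) with h3 | h3
    · exact absurd h3.2 hn2
    · exact h3.1
  have hf := sgn_dt o w f a
  have hg := sgn_dt o w g b
  rw [← h1, ← h2] at hg
  have hA' : l' (w (tri f a)) = m' := by rw [h1]; exact hlin' _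
  have hB' : l' (w (tri f (a + 1))) = m' := by rw [h2]; exact hlin' _
  set A : E3 := w (tri f a) - o with hA
  set B : E3 := w (tri f (a + 1)) - o with hB
  set K : E3 := w (tri f (a + 2)) - o with hK
  set L : E3 := w (tri g (b + 2)) - o with hL
  have hg2 : dt o w g = - sgnD A B L := by
    rw [hg]
    unfold sgnD
    ring
  have hcr := sgn_cramer A B K L
  have c1 := congrArg l hcr
  have c2 := congrArg l' hcr
  simp only [map_add, map_smul, smul_eq_mul] at c1 c2
  have lA : l A = m - l o := by rw [hA, map_sub, hlin]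
  have lB : l B = m - l o := by rw [hB, map_sub, hlin]
  have lK : l K = m - l o := by rw [hK, map_sub, hlin]
  have lL : l L < m - l o := by rw [hL, map_sub]; linarith
  have lA' : l' A = m' - l' o := by rw [hA, map_sub, hA']
  have lB' : l' B = m' - l' o := by rw [hB, map_sub, hB']
  have lL' : l' L = m' - l' o := by rw [hL, map_sub, hlin']
  have lK' : l' K < m' - l' o := by rw [hK, map_sub]; linarith
  rw [lA, lB, lK] at c1
  rw [lA', lB', lL'] at c2
  rw [hf] at hDf
  rw [hf, hg2]
  set D : ℝ := sgnD A B K with hDdef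
  set α : ℝ := sgnD L B K
  set β : ℝ := sgnD A L K
  set γ : ℝ := sgnD A B L
  have hp : 0 < m - l o := by linarith
  have hp' : 0 < m' - l' o := by linarith
  have hD2 : 0 < D ^ 2 := by positivity
  -- first functional
  have s1 : D * (α + β + γ) < D ^ 2 := by
    have e : D * (α + β + γ) * (m - l o) = D ^ 2 * l L := by
      have : D * (D * l L) = D * (α * (m - l o) + β * (m - l o) + γ * (m - l o)) := by
        rw [c1]
      linarith [this]
    have : D * (α + β + γ) * (m - l o) < D ^ 2 * (m - l o) := by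
      rw [e]
      exact mul_lt_mul_of_pos_left lL hD2
    exact lt_of_mul_lt_mul_right this hp.le
  -- second functional
  have e2 : (D * γ) * ((m' - l' o) - l' K) = (D * (α + β + γ) - D ^ 2) * (m' - l' o) := by
    have : D * (D * (m' - l' o)) = D * (α * (m' - l' o) + β * (m' - l' o) + γ * l' K) := by
      rw [c2]
    linarith [this]
  have hneg : (D * γ) * ((m' - l' o) - l' K) < 0 := by
    rw [e2]
    exact mul_neg_of_neg_of_pos (by linarith) hp'
  have hpos : 0 < (m' - l' o) - l' K := by linarith
  have : D * γ < 0 := by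
    by_contra hc
    push Not at hc
    have := mul_nonneg hc hpos.le
    linarith
  have e3 : D * -γ = -(D * γ) := by ring
  rw [e3]
  linarith

end Pool.Agent.ICB
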