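import Pool.Agent.ICB.St

/-! Module SUM of the project ICB: the signed volume does not depend on the apex. -/

set_option autoImplicit false

namespace Pool.Agent.ICB

theorem t_SUM : StSUM := by
  intro w o
  have h20 : ∀ F : Fin 20 → ℝ, ∑ f, F f = F 0 + F 1 + F 2 + F 3 + F 4 + F 5 + F 6 + F 7 + F 8
      + F 9 + F 10 + F 11 + F 12 + F 13 + F 14 + F 15 + F 16 + F 17 + F 18 + F 19 := by
    intro F
    simp [Fin.sum_univ_succ]
    ring_nf
  rw [vol, h20, h20]
  simp only [dt, Matrix.det_fin_three, Matrix.of_apply]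
  simp only [tri, Matrix.cons_val, Matrix.cons_val_zero, Matrix.cons_val_one]
  ring

end Pool.Agent.ICB
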