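import Pool.Agent.ICB.St

/-! # Module SUP of the project ICB: supporting planes of the twenty triangles -/

set_option autoImplicit false
set_option maxHeartbeats 4000000

open scoped RealInnerProductSpace
open MeasureTheory Measure

namespace Pool.Agent.ICB

theorem sup_out (f : Fin 20) : ∃ i : Fin 12, ¬∃ k, tri f k = i := by
  revert f
  decide

theorem t_SUP : StSUP := by
  intro P w o hP ho f
  have h0 : w (tri f 0) ∈ face w f := subset_convexHull ℝ _ (by simp)
  obtain ⟨l, hl⟩ := hP.face_exposed f ⟨_, h0⟩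
  have hw : ∀ i, w i ∈ P := fun i => by
    rw [hP.hull_eq]; exact subset_convexHull ℝ _ ⟨i, rfl⟩
  have hmax : ∀ y ∈ P, l y ≤ l (w (tri f 0)) := by
    rw [hl] at h0
    exact h0.2
  have hin : ∀ i, w i ∈ face w f → l (w i) = l (w (tri f 0)) := by
    intro i hi
    rw [hl] at hi
    exact le_antisymm (hmax _ (hw i)) (hi.2 _ (hw _))
  have hout : ∀ i, w i ∉ face w f → l (w i) < l (w (tri f 0)) := by
    intro i hi
    refine lt_of_le_of_ne (hmax _ (hw i)) fun h => hi ?_
    rw [hl]
    exact ⟨hw i, fun y hy => by rw [h]; exact hmax y hy⟩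
  refine ⟨l, l (w (tri f 0)), ?_, fun i => ?_⟩
  · obtain ⟨i, hi⟩ := sup_out f
    have hi' : w i ∉ face w f := fun h => hi ((hP.mem_face f i).1 h)
    have hlt := hout i hi'
    by_contra hcon
    have hcon' : l (w (tri f 0)) ≤ l o := not_lt.1 hcon
    -- a small extension of the segment beyond `o`
    have hcont : Filter.Tendsto (fun e : ℝ => o + e • (o - w i)) (nhds 0) (nhds o) := by
      have : Continuous fun e : ℝ => o + e • (o - w i) := by fun_prop
      have h := this.tendsto 0
      simpa using h
    have hnb : P ∈ nhds o := mem_interior_iff_mem_nhds.1 ho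
    have hev := hcont hnb
    obtain ⟨ε, hε, hball⟩ := Metric.mem_nhds_iff.1 hev
    have hmem : (ε / 2) ∈ Metric.ball (0 : ℝ) ε := by
      rw [Metric.mem_ball, Real.dist_eq, sub_zero, abs_of_pos (by linarith)]
      linarith
    have hz : o + (ε / 2) • (o - w i) ∈ P := hball hmem
    have hle := hmax _ hz
    rw [map_add, map_smul, map_sub, smul_eq_mul] at hle
    nlinarith
  · by_cases h : ∃ k, tri f k = i
    · exact Or.inl ⟨hin i ((hP.mem_face f i).2 h), h⟩
    · exact Or.inr ⟨hout i (fun hi => h ((hP.mem_face f i).1 hi)), h⟩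

end Pool.Agent.ICB
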