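import Pool.Agent.ICB.St

/-!
# Project ICB, module SYM

A central symmetry of a polytope of the icosahedral type maps every vertex to the opposite one.
-/

set_option autoImplicit false

open scoped RealInnerProductSpace

namespace Pool.Agent.ICB

namespace SYM

/-- Bit masks of the neighbourhoods of the vertices of the icosahedron. -/
def nbm : Fin 12 → ℕ := ![2078, 2833, 185, 3205, 551, 724, 1952, 1132, 3650, 370, 2504, 1291]

theorem adj_iff : ∀ i j : Fin 12, Adj i j ↔ (nbm i).testBit j = true := by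
  decide +kernel

theorem comb_bits : ∀ i k : Fin 12, k ≠ i → (nbm i).testBit k = false → k ≠ i + 6 →
    ∃ a b : Fin 12, (nbm a).testBit b = true ∧
      ∀ x : Fin 12, ((nbm i).testBit x = true ∧ (nbm k).testBit x = true) ↔ (x = a ∨ x = b) := by
  decide +kernel

theorem comb (i k : Fin 12) (h1 : k ≠ i) (h2 : ¬ Adj i k) (h3 : k ≠ i + 6) :
    ∃ a b : Fin 12, Adj a b ∧ ∀ x : Fin 12, (Adj i x ∧ Adj k x) ↔ (x = a ∨ x = b) := by
  have h2' : (nbm i).testBit k = false := by
    rw [adj_iff] at h2
    exact Bool.eq_false_iff.mpr h2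
  obtain ⟨a, b, hab, hx⟩ := comb_bits i k h1 h2' h3
  refine ⟨a, b, (adj_iff a b).2 hab, fun x => ?_⟩
  rw [adj_iff, adj_iff]
  exact hx x

/-- Every triangle misses some vertex. -/
theorem missing : ∀ f : Fin 20, ∃ j : Fin 12, ¬ ∃ k, tri f k = j := by
  decide +kernel

/-- Every vertex lies in some triangle. -/
theorem in_tri : ∀ i : Fin 12, ∃ f, ∃ k, tri f k = i := by
  decide +kernel

/-- The image of an exposed face under a central symmetry of `P` is an exposed face. -/
theorem image_exposed {P F : Set E3} {c : E3} (hs : ∀ x ∈ P, (2 : ℝ) • c - x ∈ P)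
    (hF : IsExposed ℝ P F) : IsExposed ℝ P ((fun x => (2 : ℝ) • c - x) '' F) := by
  rintro ⟨y, x, hx, rfl⟩
  obtain ⟨l, hl⟩ := hF ⟨x, hx⟩
  refine ⟨-l, ?_⟩
  have hinv : ∀ z : E3, (2 : ℝ) • c - ((2 : ℝ) • c - z) = z := fun z => by abel
  have hlin : ∀ z : E3, l ((2 : ℝ) • c - z) = 2 * l c - l z := fun z => by
    rw [map_sub, map_smul, smul_eq_mul]
  ext z
  constructor
  · rintro ⟨t, ht, rfl⟩
    rw [hl] at ht
    obtain ⟨htP, htm⟩ := ht
    refine ⟨hs t htP, fun y hy => ?_⟩
    have h1 := htm _ (hs y hy)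
    rw [hlin] at h1
    change -(l y) ≤ -(l ((2 : ℝ) • c - t))
    rw [hlin]
    linarith
  · rintro ⟨hzP, hzm⟩
    refine ⟨(2 : ℝ) • c - z, ?_, hinv z⟩
    rw [hl]
    refine ⟨hs z hzP, fun y hy => ?_⟩
    have h1 := hzm _ (hs y hy)
    change -(l ((2 : ℝ) • c - y)) ≤ -(l z) at h1
    rw [hlin] at h1 ⊢
    linarith

end SYM

open SYM in
/-- Central symmetry respects opposite vertices. -/
theorem t_SYM (hF : StFRT) : StSYM := by
  intro P w c hI hint hsym
  have hconv : Convex ℝ P := by
    rw [hI.hull_eq]; exact convex_convexHull ℝ _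
  have hcomp : IsCompact P := by
    rw [hI.hull_eq]; exact (Set.finite_range w).isCompact_convexHull ℝ
  have hwP : ∀ j, w j ∈ P := fun j => by
    rw [hI.hull_eq]; exact subset_convexHull ℝ _ ⟨j, rfl⟩
  have hinv : ∀ z : E3, (2 : ℝ) • c - ((2 : ℝ) • c - z) = z := fun z => by abel
  -- the centre is an interior point
  have himg : (Homeomorph.subLeft ((2 : ℝ) • c)) '' P = P := by
    ext z
    constructor
    · rintro ⟨t, ht, rfl⟩
      exact hsym t ht
    · intro hz
      exact ⟨(2 : ℝ) • c - z, hsym z hz, hinv z⟩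
  have hc : c ∈ interior P := by
    obtain ⟨x, hx⟩ := hint
    have hx' : (2 : ℝ) • c - x ∈ interior P := by
      have h1 := (Homeomorph.subLeft ((2 : ℝ) • c)).image_interior P
      rw [himg] at h1
      rw [← h1]
      exact ⟨x, hx, rfl⟩
    have h2 := hconv.interior hx hx' (by norm_num : (0 : ℝ) ≤ 1 / 2)
      (by norm_num : (0 : ℝ) ≤ 1 / 2) (by norm_num)
    have h3 : (1 / 2 : ℝ) • x + (1 / 2 : ℝ) • ((2 : ℝ) • c - x) = c := by
      module
    rwa [h3] at h2
  -- no proper face contains the centre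
  have hnf : ∀ F : Set E3, IsExposed ℝ P F → F ≠ P → c ∉ F := by
    intro F hFe hFn hcF
    have h1 : c ∈ frontier P := (hF P hconv hcomp ⟨c, hc⟩ c).2 ⟨F, hFe, hFn, hcF⟩
    exact h1.2 hc
  have hface : ∀ f : Fin 20, c ∉ face w f := by
    intro f
    refine hnf _ (hI.face_exposed f) ?_
    intro hEq
    obtain ⟨j, hj⟩ := missing f
    apply hj
    rw [← hI.mem_face f j, hEq]
    exact hwP j
  -- the permutation of the vertices
  have hex : ∀ i, ∃ j, w j = (2 : ℝ) • c - w i := by
    intro i
    have h1 := image_exposed hsym (hI.vertex i)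
    rw [Set.image_singleton] at h1
    have h2 : (2 : ℝ) • c - w i ∈ P.extremePoints ℝ := by
      have := h1.isExtreme
      rwa [isExtreme_singleton] at this
    rw [hI.hull_eq] at h2
    have h3 : (2 : ℝ) • c - w i ∈ Set.range w := extremePoints_convexHull_subset h2
    exact h3
  choose π hπ using hex
  have hππ : ∀ i, π (π i) = i := by
    intro i
    apply hI.inj
    rw [hπ, hπ, hinv]
  have hne : ∀ i, π i ≠ i := by
    intro i h
    have h1 := hπ i
    rw [h] at h1
    have h2 : w i = c := by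
      have h4 : w i + w i = (2 : ℝ) • c := by
        nth_rewrite 1 [h1]; abel
      have h5 : (2 : ℝ) • w i = (2 : ℝ) • c := by rw [two_smul, h4]
      exact smul_right_injective E3 (two_ne_zero) h5
    obtain ⟨f, hf⟩ := in_tri i
    apply hface f
    rw [← h2]
    exact (hI.mem_face f i).2 hf
  have hmid : ∀ i, c ∈ segment ℝ (w i) (w (π i)) := by
    intro i
    refine ⟨1 / 2, 1 / 2, by norm_num, by norm_num, by norm_num, ?_⟩
    rw [hπ]
    module
  have hna : ∀ i, ¬ Adj i (π i) := by
    rintro i ⟨_, f, hi, hj⟩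
    apply hface f
    have h1 : Convex ℝ (face w f) := convex_convexHull ℝ _
    exact h1.segment_subset ((hI.mem_face f i).2 hi) ((hI.mem_face f (π i)).2 hj) (hmid i)
  have hadj : ∀ i j, Adj i j → Adj (π i) (π j) := by
    intro i j hij
    have h1 : IsExposed ℝ P (segment ℝ (w i) (w j)) := (hI.edge i j hij.1).2 hij
    have h2 := image_exposed hsym h1
    have h3 : (fun x => (2 : ℝ) • c - x) '' segment ℝ (w i) (w j)
        = segment ℝ (w (π i)) (w (π j)) := by
      rw [hπ, hπ]
      ext z
      constructor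
      · rintro ⟨_, ⟨a, b, ha, hb, hab, rfl⟩, rfl⟩
        refine ⟨a, b, ha, hb, hab, ?_⟩
        have : (2 : ℝ) • c = (a + b) • ((2 : ℝ) • c) := by rw [hab, one_smul]
        change _ = (2 : ℝ) • c - _
        rw [smul_sub, smul_sub]
        nth_rewrite 3 [this]
        rw [add_smul]
        abel
      · rintro ⟨a, b, ha, hb, hab, rfl⟩
        refine ⟨a • w i + b • w j, ⟨a, b, ha, hb, hab, rfl⟩, ?_⟩
        have : (2 : ℝ) • c = (a + b) • ((2 : ℝ) • c) := by rw [hab, one_smul]
        change (2 : ℝ) • c - _ = _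
        rw [smul_sub, smul_sub]
        nth_rewrite 1 [this]
        rw [add_smul]
        abel
    rw [h3] at h2
    have hne' : π i ≠ π j := by
      intro h
      apply hij.1
      have := congrArg π h
      rwa [hππ, hππ] at this
    exact (hI.edge _ _ hne').1 h2
  intro i
  have key : π i = i + 6 := by
    by_contra hcon
    obtain ⟨a, b, hab, hx⟩ := comb i (π i) (hne i) (hna i) hcon
    have ha := (hx a).2 (Or.inl rfl)
    have h1 : Adj (π i) (π a) := hadj _ _ ha.1
    have h2 : Adj i (π a) := by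
      have := hadj _ _ ha.2
      rwa [hππ] at this
    rcases (hx (π a)).1 ⟨h2, h1⟩ with h | h
    · exact hne a h
    · apply hna a
      rw [h]
      exact hab
  rw [← key]
  exact hπ i

end Pool.Agent.ICB
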