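import Pool.Agent.ICB.St

/-!
# Module TET of the project ICB: volume of a tetrahedron
-/

set_option autoImplicit false

open scoped RealInnerProductSpace Pointwise
open MeasureTheory Measure

namespace Pool.Agent.ICB

namespace TET

/-- The standard basis. -/
noncomputable abbrev B : Module.Basis (Fin 3) ℝ E3 := (EuclideanSpace.basisFun (Fin 3) ℝ).toBasis

/-- The standard simplex. -/
noncomputable def D : Set E3 := convexHull ℝ {0, B 0, B 1, B 2}

theorem top : volume D ≠ ⊤ :=
  ((Set.toFinite _).isCompact_convexHull ℝ).measure_lt_top.ne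

theorem range : Set.range B = {B 0, B 1, B 2} := by
  ext x
  simp only [Set.mem_range, Set.mem_insert_iff, Set.mem_singleton_iff]
  constructor
  · rintro ⟨i, rfl⟩
    fin_cases i <;> simp
  · rintro (h | h | h)
    exacts [⟨0, h.symm⟩, ⟨1, h.symm⟩, ⟨2, h.symm⟩]

theorem ne_zero : volume D ≠ 0 := by
  have h : (interior D).Nonempty := by
    unfold D
    rw [interior_convexHull_nonempty_iff_affineSpan_eq_top]
    rw [← range]
    apply SetLike.coe_injective
    rw [affineSpan_insert_zero, B.span_eq]
    rfl
  intro h0
  exact (isOpen_interior.measure_pos volume h).ne' (measure_mono_null interior_subset h0)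

theorem image (v : Fin 3 → E3) (o : E3) : ∃ L : E3 →ₗ[ℝ] E3,
    LinearMap.det L = (Matrix.of fun i j => v i j - o j).det ∧ ∀ i, L (B i) = v i - o := by
  refine ⟨Matrix.toLin B B (Matrix.of fun i j => v i j - o j).transpose, ?_, fun i => ?_⟩
  · rw [LinearMap.det_toLin, Matrix.det_transpose]
  · rw [Matrix.toLin_self]
    have h := B.sum_repr (v i - o)
    rw [← h]
    refine Finset.sum_congr rfl fun j _ => ?_
    simp

end TET

theorem t_TET : StTET := by
  refine ⟨volume TET.D, TET.ne_zero, TET.top, fun v o => ?_⟩
  obtain ⟨L, hL, h⟩ := TET.image v o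
  have h1 : convexHull ℝ {o, v 0, v 1, v 2} = o +ᵥ (L '' TET.D) := by
    unfold TET.D
    rw [LinearMap.image_convexHull, ← convexHull_vadd]
    congr 1
    simp only [Set.image_insert_eq, Set.image_singleton, map_zero, h, Set.vadd_set_insert,
      Set.vadd_set_singleton, vadd_eq_add, add_zero, add_sub_cancel]
  rw [h1, measure_vadd, addHaar_image_linearMap, hL]

end Pool.Agent.ICB
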