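import Pool.Agent.ICB.St

set_option autoImplicit false

namespace Pool.Agent.ICB

/-- A nonempty exposed face contains an exposed point. -/
theorem TRF_ex (hG : StGEN) (S : Finset E3) (F : Fc (hull S)) (hne : F.1.Nonempty) :
    ∃ x, x ∈ F.1 ∧ IsExposed ℝ (hull S) {x} := by
  by_contra hcon
  have h := hG S F.1 F.2
  have he : {x | x ∈ F.1 ∧ IsExposed ℝ (hull S) {x}} = ∅ := by
    ext x
    simp only [Set.mem_empty_iff_false, iff_false]
    exact fun hx => hcon ⟨x, hx⟩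
  rw [he, convexHull_empty] at h
  rw [h] at hne
  exact Set.not_nonempty_empty hne

/-- An isomorphism maps nonempty faces to nonempty faces. -/
theorem TRF_ne {A B : Set E3} (φ : Fc A ≃o Fc B) (F : Fc A) (hne : F.1.Nonempty) :
    (φ F).1.Nonempty := by
  rw [Set.nonempty_iff_ne_empty]
  intro he
  have h1 : φ F ≤ φ ⟨∅, isExposed_empty⟩ := by
    intro z hz
    rw [he] at hz
    exact hz.elim
  have h2 : F ≤ ⟨∅, isExposed_empty⟩ := φ.le_iff_le.1 h1
  obtain ⟨x, hx⟩ := hne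
  exact h2 hx

/-- Exposed points come from exposed points. -/
theorem TRF_key (hG : StGEN) (S : Finset E3) {B : Set E3} (φ : Fc (hull S) ≃o Fc B)
    (y : E3) (hy : IsExposed ℝ B {y}) :
    ∃ x, ∃ h : IsExposed ℝ (hull S) {x}, (φ ⟨{x}, h⟩).1 = {y} := by
  have hA : (φ.symm ⟨{y}, hy⟩).1.Nonempty :=
    TRF_ne φ.symm ⟨{y}, hy⟩ (Set.singleton_nonempty y)
  obtain ⟨x, hx, hex⟩ := TRF_ex hG S _ hA
  refine ⟨x, hex, ?_⟩
  have h1 : (⟨{x}, hex⟩ : Fc (hull S)) ≤ φ.symm ⟨{y}, hy⟩ := by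
    intro z hz
    have hz' : z = x := hz
    rw [hz']
    exact hx
  have h2 : φ ⟨{x}, hex⟩ ≤ ⟨{y}, hy⟩ := by
    have := φ.monotone h1
    rwa [φ.apply_symm_apply] at this
  have h3 : (φ ⟨{x}, hex⟩).1.Nonempty := TRF_ne φ ⟨{x}, hex⟩ (Set.singleton_nonempty x)
  have h4 : (φ ⟨{x}, hex⟩).1 ⊆ {y} := h2
  rcases Set.subset_singleton_iff_eq.1 h4 with h5 | h5
  · rw [h5] at h3
    exact absurd h3 Set.not_nonempty_empty
  · exact h5

theorem t_TRF (h : StGEN) : StTRF := by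
  classical
  intro S T φ
  let g : E3 → E3 := fun y =>
    if hy : IsExposed ℝ (hull T) {y} then Classical.choose (TRF_key h S φ y hy) else 0
  have hg : ∀ y, IsExposed ℝ (hull T) {y} →
      ∃ h : IsExposed ℝ (hull S) {g y}, (φ ⟨{g y}, h⟩).1 = {y} := by
    intro y hy
    have he : g y = Classical.choose (TRF_key h S φ y hy) := dif_pos hy
    rw [he]
    exact Classical.choose_spec (TRF_key h S φ y hy)
  have h3 : ∀ (F : Fc (hull S)) (y : E3), IsExposed ℝ (hull T) {y} →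
      (g y ∈ F.1 ↔ y ∈ (φ F).1) := by
    intro F y hy
    obtain ⟨h1, h2⟩ := hg y hy
    constructor
    · intro hm
      have hle : (⟨{g y}, h1⟩ : Fc (hull S)) ≤ F := by
        intro z hz
        have hz' : z = g y := hz
        rw [hz']
        exact hm
      have hle2 : (φ ⟨{g y}, h1⟩).1 ⊆ (φ F).1 := φ.monotone hle
      rw [h2] at hle2
      exact hle2 rfl
    · intro hm
      have hle2 : φ ⟨{g y}, h1⟩ ≤ φ F := by
        intro z hz
        have hz1 : z ∈ (φ ⟨{g y}, h1⟩).1 := hz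
        rw [h2] at hz1
        have hz' : z = y := hz1
        rw [hz']
        exact hm
      have hle : (⟨{g y}, h1⟩ : Fc (hull S)) ≤ F := φ.le_iff_le.1 hle2
      exact hle rfl
  refine ⟨g, hg, ?_, h3⟩
  intro F
  have hset : {x | x ∈ F.1 ∧ IsExposed ℝ (hull S) {x}} =
      g '' {y | y ∈ (φ F).1 ∧ IsExposed ℝ (hull T) {y}} := by
    ext x
    constructor
    · rintro ⟨hx, hex⟩
      obtain ⟨y, hy, hxy⟩ := TRF_key h T φ.symm x hex
      have e1 : φ.symm ⟨{y}, hy⟩ = ⟨{x}, hex⟩ := Subtype.ext hxy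
      have e2 : φ ⟨{x}, hex⟩ = ⟨{y}, hy⟩ := by
        rw [← e1, φ.apply_symm_apply]
      obtain ⟨h1, h2⟩ := hg y hy
      have e3 : φ ⟨{g y}, h1⟩ = φ ⟨{x}, hex⟩ := by
        rw [e2]
        exact Subtype.ext h2
      have e4 := congrArg Subtype.val (φ.injective e3)
      have e5 : g y = x := Set.singleton_eq_singleton_iff.1 e4
      refine ⟨y, ⟨?_, hy⟩, e5⟩
      refine (h3 F y hy).1 ?_
      rw [e5]
      exact hx
    · rintro ⟨y, ⟨hy1, hy2⟩, rfl⟩
      exact ⟨(h3 F y hy2).2 hy1, (hg y hy2).1⟩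
  rw [← hset]
  exact h S F.1 F.2

end Pool.Agent.ICB
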