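import Pool.Agent.ICB.LOC
import Pool.Agent.ICB.ABS
import Pool.Agent.ICB.EXPT
import Pool.Agent.ICB.GEN
import Pool.Agent.ICB.TRF
import Pool.Agent.ICB.RV
import Pool.Agent.ICB.RE
import Pool.Agent.ICB.RC
import Pool.Agent.ICB.RA
import Pool.Agent.ICB.LAB
import Pool.Agent.ICB.DET
import Pool.Agent.ICB.CONN
import Pool.Agent.ICB.SUM
import Pool.Agent.ICB.TET
import Pool.Agent.ICB.NULS
import Pool.Agent.ICB.FRM
import Pool.Agent.ICB.SYM
import Pool.Agent.ICB.SET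
import Pool.Agent.ICB.FRT
import Pool.Agent.ICB.RF
import Pool.Agent.ICB.SUP
import Pool.Agent.ICB.SGN
import Pool.Agent.ICB.HTR

/-!
# ICB: everything together
-/

set_option autoImplicit false

namespace Pool.Agent.ICB

theorem p_EXPT : StEXPT := t_EXPT
theorem p_GEN : StGEN := t_GEN p_EXPT
theorem p_FRT : StFRT := t_FRT
theorem p_TRF : StTRF := t_TRF p_GEN
theorem p_RV : StRV := t_RV
theorem p_RF : StRF := t_RF
theorem p_RE : StRE := t_RE
theorem p_RC : StRC := t_RC p_GEN p_RV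
theorem p_RA : StRA := t_RA p_GEN p_RV p_RF p_RE p_RC
theorem p_LAB : StLAB := t_LAB p_TRF p_GEN p_RV p_RA
theorem p_SUP : StSUP := t_SUP
theorem p_DET : StDET := t_DET p_SUP
theorem p_SGN : StSGN := t_SGN p_SUP p_DET
theorem p_CON : StCON := t_CON
theorem p_SUM : StSUM := t_SUM
theorem p_TET : StTET := t_TET
theorem p_NUL : StNUL := t_NUL
theorem p_INT : StINT := t_INT p_GEN
theorem p_CONE : StCONE := t_CONE p_FRT p_NUL p_INT
theorem p_HTR : StHTR := t_HTR
theorem p_FRM : StFRM := t_FRM p_FRT p_NUL p_INT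
theorem p_SYM : StSYM := t_SYM p_FRT
theorem p_SET : StSET := t_SET
theorem p_BRG2 : StBRG2 :=
  t_BRG2 p_SGN p_CON p_SUM p_TET p_CONE p_HTR p_FRM p_FRT p_NUL p_INT p_GEN
theorem p_BRG : StBRG := t_BRG p_BRG2

end Pool.Agent.ICB
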