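import Pool.Agent.ICB.St

/-!
# ICB, module CONE: decomposition of a polytope of the icosahedral type into twenty cones
-/

set_option autoImplicit false

open scoped RealInnerProductSpace Topology
open MeasureTheory Measure

namespace Pool.Agent.ICB
namespace CONE

/-- The translated body. -/
def Q (P : Set E3) (o : E3) : Set E3 := (Homeomorph.addLeft o) ⁻¹' P

theorem mem_Q (P : Set E3) (o z : E3) : z ∈ Q P o ↔ o + z ∈ P := Iff.rfl

theorem convex_Q {P : Set E3} (hP : Convex ℝ P) (o : E3) : Convex ℝ (Q P o) := by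
  intro x hx y hy a b ha hb hab
  rw [mem_Q] at hx hy ⊢
  have h := hP hx hy ha hb hab
  have e : a • (o + x) + b • (o + y) = o + (a • x + b • y) := by
    rw [smul_add, smul_add, add_add_add_comm, ← add_smul, hab, one_smul]
  rwa [e] at h

theorem compact_Q {P : Set E3} (hP : IsCompact P) (o : E3) : IsCompact (Q P o) :=
  (Homeomorph.isCompact_preimage _).2 hP

theorem nhds_Q {P : Set E3} {o : E3} (ho : o ∈ interior P) : Q P o ∈ 𝓝 (0 : E3) := by
  have h1 : P ∈ 𝓝 (o + 0) := by
    rw [add_zero]
    exact mem_interior_iff_mem_nhds.1 ho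
  exact (Homeomorph.addLeft o).continuous.continuousAt.preimage_mem_nhds h1

theorem frontier_Q (P : Set E3) (o z : E3) : z ∈ frontier (Q P o) ↔ o + z ∈ frontier P := by
  unfold Q
  rw [← Homeomorph.preimage_frontier]
  rfl

theorem gauge_Q {P : Set E3} (hP : Convex ℝ P) {o : E3} (ho : o ∈ interior P) {z : E3} :
    gauge (Q P o) z = 1 ↔ o + z ∈ frontier P := by
  rw [gauge_eq_one_iff_mem_frontier (convex_Q hP o) (nhds_Q ho), frontier_Q]

/-- Two points of the frontier on the same ray coincide. -/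
theorem ray_unique {P : Set E3} (hP : Convex ℝ P) {o : E3} (ho : o ∈ interior P) {y y' : E3}
    (hy : y ∈ frontier P) (hy' : y' ∈ frontier P) {s t : ℝ} (hs : 0 < s) (ht : 0 < t)
    (h : o + s • (y - o) = o + t • (y' - o)) : y = y' := by
  have h1 : gauge (Q P o) (y - o) = 1 := (gauge_Q hP ho).2 (by rwa [add_sub_cancel])
  have h2 : gauge (Q P o) (y' - o) = 1 := (gauge_Q hP ho).2 (by rwa [add_sub_cancel])
  have h3 : s • (y - o) = t • (y' - o) := add_left_cancel h
  have h4 : gauge (Q P o) (s • (y - o)) = s := by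
    rw [gauge_smul_of_nonneg hs.le, h1, smul_eq_mul, mul_one]
  have h5 : gauge (Q P o) (t • (y' - o)) = t := by
    rw [gauge_smul_of_nonneg ht.le, h2, smul_eq_mul, mul_one]
  have h6 : s = t := by rw [← h4, h3, h5]
  subst h6
  have h7 : y - o = y' - o := smul_right_injective _ hs.ne' h3
  exact sub_left_injective h7

/-- Every point different from the centre is on a segment from the centre to the frontier. -/
theorem ray_exists {P : Set E3} (hP : Convex ℝ P) (hc : IsCompact P) {o : E3}
    (ho : o ∈ interior P) {x : E3} (hx : x ∈ P) (hxo : x ≠ o) :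
    ∃ y ∈ frontier P, x ∈ segment ℝ o y := by
  set t : ℝ := gauge (Q P o) (x - o) with ht
  have h0 : 0 < t := by
    refine (gauge_pos (absorbent_nhds_zero (nhds_Q ho)) ?_).2 (sub_ne_zero.2 hxo)
    exact NormedSpace.isVonNBounded_of_isBounded _ (compact_Q hc o).isBounded
  have h1 : t ≤ 1 := gauge_le_one_of_mem (by rw [mem_Q, add_sub_cancel]; exact hx)
  have h2 : gauge (Q P o) (t⁻¹ • (x - o)) = 1 := by
    rw [gauge_smul_of_nonneg (inv_nonneg.2 h0.le), smul_eq_mul, ← ht, inv_mul_cancel₀ h0.ne']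
  refine ⟨o + t⁻¹ • (x - o), (gauge_Q hP ho).1 h2, ?_⟩
  rw [segment_eq_image']
  refine ⟨t, ⟨h0.le, h1⟩, ?_⟩
  simp only [add_sub_cancel_left]
  rw [smul_smul, mul_inv_cancel₀ h0.ne', one_smul, add_sub_cancel]

/-- The cone over a triangle. -/
theorem mem_cone (o a b c x : E3) :
    x ∈ convexHull ℝ ({o, a, b, c} : Set E3) ↔
      ∃ y ∈ convexHull ℝ ({a, b, c} : Set E3), x ∈ segment ℝ o y := by
  rw [convexHull_insert ⟨a, by simp⟩, mem_convexJoin]
  simp

theorem exists_off : ∀ f : Fin 20, ∃ i : Fin 12, ¬∃ k, tri f k = i := by decide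

end CONE

open CONE in
/-- Decomposition into cones. -/
theorem t_CONE (hF : StFRT) (hN : StNUL) (hI : StINT) : StCONE := by
  intro P w o hw ho
  have hconv : Convex ℝ P := by
    rw [hw.hull_eq]
    exact convex_convexHull ℝ _
  have hcomp : IsCompact P := by
    rw [hw.hull_eq]
    exact Set.Finite.isCompact_convexHull (𝕜 := ℝ) (Set.finite_range w)
  have hwP : ∀ i, w i ∈ P := by
    intro i
    rw [hw.hull_eq]
    exact subset_convexHull ℝ _ ⟨i, rfl⟩
  have hfaceP : ∀ f, face w f ⊆ P := by
    intro f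
    refine convexHull_min ?_ hconv
    intro z hz
    simp only [Set.mem_insert_iff, Set.mem_singleton_iff] at hz
    rcases hz with h | h | h <;> (rw [h]; exact hwP _)
  have hface_ne : ∀ f, face w f ≠ P := by
    intro f h
    obtain ⟨i, hi⟩ := exists_off f
    exact hi ((hw.mem_face f i).1 (h ▸ hwP i))
  have hfront : ∀ f, ∀ y ∈ face w f, y ∈ frontier P := by
    intro f y hy
    exact (hF P hconv hcomp ⟨o, ho⟩ y).2 ⟨face w f, hw.face_exposed f, hface_ne f, hy⟩
  have hcone : ∀ f x, x ∈ convexHull ℝ ({o, w (tri f 0), w (tri f 1), w (tri f 2)} : Set E3) ↔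
      ∃ y ∈ face w f, x ∈ segment ℝ o y := fun f x => mem_cone _ _ _ _ _
  have hunion : P =
      ⋃ f, convexHull ℝ ({o, w (tri f 0), w (tri f 1), w (tri f 2)} : Set E3) := by
    ext x
    rw [Set.mem_iUnion]
    constructor
    · intro hx
      by_cases hxo : x = o
      · refine ⟨0, subset_convexHull ℝ _ ?_⟩
        rw [hxo]
        exact Set.mem_insert _ _
      · obtain ⟨y, hy, hxy⟩ := ray_exists hconv hcomp ho hx hxo
        obtain ⟨F, hFe, hFne, hyF⟩ := (hF P hconv hcomp ⟨o, ho⟩ y).1 hy
        obtain ⟨f, hf⟩ := hw.cover F hFe hFne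
        exact ⟨f, (hcone f x).2 ⟨y, hf hyF, hxy⟩⟩
    · rintro ⟨f, hx⟩
      obtain ⟨y, hy, hxy⟩ := (hcone f x).1 hx
      exact hconv.segment_subset (interior_subset ho) (hfaceP f hy) hxy
  have hdisj : Pairwise (Function.onFun (AEDisjoint (volume : Measure E3))
      fun f => convexHull ℝ ({o, w (tri f 0), w (tri f 1), w (tri f 2)} : Set E3)) := by
    intro f g hfg
    obtain ⟨p, q, hpq⟩ := hI P w hw f g hfg
    refine measure_mono_null ?_ (hN.2 o p q)
    rintro x ⟨hx, hx'⟩
    obtain ⟨y, hy, hxy⟩ := (hcone f x).1 hx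
    obtain ⟨y', hy', hxy'⟩ := (hcone g x).1 hx'
    by_cases hxo : x = o
    · refine subset_convexHull ℝ _ ?_
      rw [hxo]
      exact Set.mem_insert _ _
    · have hxy0 := hxy
      rw [segment_eq_image'] at hxy hxy'
      obtain ⟨s, ⟨hs0, hs1⟩, hs⟩ := hxy
      obtain ⟨t, ⟨ht0, ht1⟩, ht⟩ := hxy'
      simp only at hs ht
      have hs' : 0 < s := by
        rcases hs0.lt_or_eq with h | h
        · exact h
        · exfalso
          apply hxo
          rw [← hs, ← h, zero_smul, add_zero]
      have ht' : 0 < t := by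
        rcases ht0.lt_or_eq with h | h
        · exact h
        · exfalso
          apply hxo
          rw [← ht, ← h, zero_smul, add_zero]
      have hyy : y = y' := ray_unique hconv ho (hfront f y hy) (hfront g y' hy') hs' ht'
        (hs.trans ht.symm)
      have hy2 : y ∈ segment ℝ p q := hpq ⟨hy, hyy ▸ hy'⟩
      have hc : Convex ℝ (convexHull ℝ ({o, p, q} : Set E3)) := convex_convexHull ℝ _
      refine hc.segment_subset (subset_convexHull ℝ _ (Set.mem_insert _ _)) ?_ hxy0
      refine hc.segment_subset (subset_convexHull ℝ _ ?_) (subset_convexHull ℝ _ ?_) hy2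
      · simp
      · simp
  have hmeas : ∀ f, NullMeasurableSet
      (convexHull ℝ ({o, w (tri f 0), w (tri f 1), w (tri f 2)} : Set E3))
      (volume : Measure E3) := by
    intro f
    exact (Set.Finite.isCompact_convexHull (𝕜 := ℝ) (Set.toFinite _)).measurableSet.nullMeasurableSet
  have hfin := measure_iUnion₀ hdisj hmeas
  rw [tsum_fintype] at hfin
  rw [← hfin, ← hunion]

end Pool.Agent.ICB
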