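import Pool.Agent.ICB.All

/-!
# Steiner's question for centrally symmetric icosahedral polytopes, in the words of the problem
-/

set_option autoImplicit false

namespace Pool.Agent.ICB

open Pool.Agent.Results.MP_fa01f0_gt.CentrallySymmetric in
/-- **Steiner's isoperimetric inequality for centrally symmetric polytopes of the icosahedral type.**
The words are those of the frozen statement S14269, with the additional hypothesis that the
polytope has a centre of symmetry. -/
theorem centrally_symmetric :
    ∀ I : Set (EuclideanSpace ℝ (Fin 3)),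
      I = convexHull ℝ {x : EuclideanSpace ℝ (Fin 3) | ∃ s t : ℝ, (s = 1 ∨ s = -1) ∧ (t = 1 ∨ t = -1) ∧
            (x = !₂[0, s, t * Real.goldenRatio] ∨ x = !₂[s, t * Real.goldenRatio, 0] ∨
              x = !₂[t * Real.goldenRatio, 0, s])} →
      ∀ S : Finset (EuclideanSpace ℝ (Fin 3)),
        (interior (convexHull ℝ (S : Set (EuclideanSpace ℝ (Fin 3))))).Nonempty →
        Nonempty ({F : Set (EuclideanSpace ℝ (Fin 3)) //
              IsExposed ℝ (convexHull ℝ (S : Set (EuclideanSpace ℝ (Fin 3)))) F} ≃o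
            {F : Set (EuclideanSpace ℝ (Fin 3)) // IsExposed ℝ I F}) →
        (∃ c : EuclideanSpace ℝ (Fin 3), ∀ x ∈ convexHull ℝ (S : Set (EuclideanSpace ℝ (Fin 3))),
          (2 : ℝ) • c - x ∈ convexHull ℝ (S : Set (EuclideanSpace ℝ (Fin 3)))) →
        ((MeasureTheory.Measure.hausdorffMeasure 2 (frontier I)).toReal) ^ 3 *
            ((MeasureTheory.volume (convexHull ℝ (S : Set (EuclideanSpace ℝ (Fin 3))))).toReal) ^ 2 ≤
          ((MeasureTheory.Measure.hausdorffMeasure 2
                (frontier (convexHull ℝ (S : Set (EuclideanSpace ℝ (Fin 3)))))).toReal) ^ 3 *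
            ((MeasureTheory.volume I).toReal) ^ 2 := by
  rintro I hI S hS ⟨φ⟩ ⟨c, hc⟩
  have hI' : I = Ico := by
    rw [hI]
    exact icosahedron_eq p_SET
  subst hI'
  obtain ⟨w, hw, -⟩ := p_LAB S φ
  refine (ineq_iff p_BRG p_RA hw hS).1.2 ?_
  have h := ineq w c (p_SYM _ w c hw hS hc)
  have er : Pool.Agent.ICB.vol reg ^ 2 =
      Pool.Agent.Results.MP_fa01f0_gt.CentrallySymmetric.vol regular ^ 2 := by
    rw [vol_reg, neg_sq]
  rw [area_reg, er, Pool.Agent.ICB.area_eq, Pool.Agent.ICB.vol_eq]
  exact h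

end Pool.Agent.ICB
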