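import Pool.Agent.ICB.St

set_option autoImplicit false

namespace Pool.Agent.ICB

lemma regSet_coe : (regSet : Set E3) = Set.range reg := by
  simp [regSet]

/-- The regular icosahedron has interior points. -/
theorem interior_Ico : (interior Ico).Nonempty := by
  rw [Ico, hull, interior_convexHull_nonempty_iff_affineSpan_eq_top, regSet_coe]
  have hne : (affineSpan ℝ (Set.range reg) : Set E3).Nonempty :=
    ⟨reg 0, subset_affineSpan ℝ _ ⟨0, rfl⟩⟩
  rw [← AffineSubspace.direction_eq_top_iff_of_nonempty hne, direction_affineSpan]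
  have hv : ∀ i j, reg i - reg j ∈ vectorSpan ℝ (Set.range reg) := fun i j =>
    vsub_mem_vectorSpan ℝ ⟨i, rfl⟩ ⟨j, rfl⟩
  rw [eq_top_iff]
  intro x _
  have hx : x = (x 1 / 2) • (reg 0 - reg 1) + (x 0 / 2) • (reg 2 - reg 3)
      + (x 2 / 2) • (reg 4 - reg 5) := by
    ext i
    fin_cases i <;> simp [reg] <;> ring
  rw [hx]
  exact Submodule.add_mem _ (Submodule.add_mem _ (Submodule.smul_mem _ _ (hv 0 1))
    (Submodule.smul_mem _ _ (hv 2 3))) (Submodule.smul_mem _ _ (hv 4 5))

end Pool.Agent.ICB
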