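import Pool.Agent.ICB.St
import Pool.Agent.ICB.INTR

set_option autoImplicit false

open MeasureTheory Measure

namespace Pool.Agent.ICB

lemma area_nonneg (w : Fin 12 → E3) : 0 ≤ area w := by
  unfold area triArea
  exact Finset.sum_nonneg fun f _ => by positivity

/-- The inequality for a labelled polytope is the inequality for its vertex map. -/
theorem ineq_iff (hB : StBRG) (hA : StRA) {P : Set E3} {w : Fin 12 → E3} (hP : IsIco P w)
    (hi : (interior P).Nonempty) :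
    (((μH[2] (frontier Ico)).toReal) ^ 3 * ((volume P).toReal) ^ 2 ≤
      ((μH[2] (frontier P)).toReal) ^ 3 * ((volume Ico).toReal) ^ 2 ↔
      area reg ^ 3 * vol w ^ 2 ≤ area w ^ 3 * vol reg ^ 2) ∧
    (((μH[2] (frontier Ico)).toReal) ^ 3 * ((volume P).toReal) ^ 2 =
      ((μH[2] (frontier P)).toReal) ^ 3 * ((volume Ico).toReal) ^ 2 ↔
      area reg ^ 3 * vol w ^ 2 = area w ^ 3 * vol reg ^ 2) ∧ vol w ≠ 0 := by
  obtain ⟨κ, τ, k0, k1, t0, t1, hb⟩ := hB
  obtain ⟨a1, v1⟩ := hb P w hP hi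
  obtain ⟨a2, v2⟩ := hb Ico reg hA interior_Ico
  have hk : 0 < κ.toReal := ENNReal.toReal_pos k0 k1
  have ht : 0 < τ.toReal := ENNReal.toReal_pos t0 t1
  have hc : 0 < κ.toReal ^ 3 * τ.toReal ^ 2 := by positivity
  have e1 : ((μH[2] (frontier Ico)).toReal) ^ 3 * ((volume P).toReal) ^ 2 =
      (κ.toReal ^ 3 * τ.toReal ^ 2) * (area reg ^ 3 * vol w ^ 2) := by
    rw [a2, v1, ENNReal.toReal_mul, ENNReal.toReal_mul, ENNReal.toReal_ofReal (area_nonneg _),
      ENNReal.toReal_ofReal (abs_nonneg _), mul_pow, mul_pow, sq_abs]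
    ring
  have e2 : ((μH[2] (frontier P)).toReal) ^ 3 * ((volume Ico).toReal) ^ 2 =
      (κ.toReal ^ 3 * τ.toReal ^ 2) * (area w ^ 3 * vol reg ^ 2) := by
    rw [a1, v2, ENNReal.toReal_mul, ENNReal.toReal_mul, ENNReal.toReal_ofReal (area_nonneg _),
      ENNReal.toReal_ofReal (abs_nonneg _), mul_pow, mul_pow, sq_abs]
    ring
  refine ⟨?_, ?_, ?_⟩
  · rw [e1, e2]
    exact mul_le_mul_iff_right₀ hc
  · rw [e1, e2]
    exact mul_right_inj' hc.ne'
  · intro h0
    rw [h0, abs_zero, ENNReal.ofReal_zero, zero_mul] at v1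
    exact (measure_pos_of_nonempty_interior volume hi).ne' v1

end Pool.Agent.ICB
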