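import Pool.Agent.ICB.St

set_option autoImplicit false

open scoped RealInnerProductSpace
open MeasureTheory Measure

namespace Pool.Agent.ICB

/-- Two different triangles have all their common vertices among two indices. -/
theorem int_common : ∀ f g : Fin 20, f ≠ g → ∃ x y : Fin 12,
    ∀ i : Fin 12, (∃ k, tri f k = i) → (∃ k, tri g k = i) → i = x ∨ i = y := by
  decide

/-- INT: two triangles meet at most in a segment. -/
theorem t_INT (hG : StGEN) : StINT := by
  intro P w hP f g hfg
  obtain ⟨x, y, hxy⟩ := int_common f g hfg
  refine ⟨w x, w y, ?_⟩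
  have hPS : P = hull (Finset.univ.image w) := by
    rw [hP.hull_eq]
    simp [hull]
  have hF : IsExposed ℝ P (face w f ∩ face w g) := (hP.face_exposed f).inter (hP.face_exposed g)
  have hgen := hG (Finset.univ.image w) (face w f ∩ face w g) (hPS ▸ hF)
  rw [hgen, ← convexHull_pair]
  refine convexHull_mono ?_
  rintro z ⟨hzF, hz⟩
  have hzext : z ∈ (hull (Finset.univ.image w)).extremePoints ℝ :=
    exposedPoints_subset_extremePoints (mem_exposedPoints_iff_exposed_singleton.2 hz)
  have hzS := extremePoints_convexHull_subset hzext
  simp only [Finset.coe_image, Finset.coe_univ, Set.image_univ, Set.mem_range] at hzS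
  obtain ⟨i, rfl⟩ := hzS
  have h1 := (hP.mem_face f i).1 hzF.1
  have h2 := (hP.mem_face g i).1 hzF.2
  rcases hxy i h1 h2 with h | h
  · subst h; simp
  · subst h; simp

end Pool.Agent.ICB
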