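import Pool.Agent.ICB.CONE
import Pool.Agent.ICB.INT

/-!
# ICB: the two halves of an icosahedral polytope
-/

set_option autoImplicit false

open scoped RealInnerProductSpace
open MeasureTheory Measure

namespace Pool.Agent.ICB

/-- The part of `P` which is seen from `c` through the proper faces that meet `T`: the union of the
cones with apex `c` over these faces. -/
def partOver (P : Set (EuclideanSpace ℝ (Fin 3))) (c : EuclideanSpace ℝ (Fin 3))
    (T : Set (EuclideanSpace ℝ (Fin 3))) : Set (EuclideanSpace ℝ (Fin 3)) :=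
  ⋃ F ∈ {F : Set (EuclideanSpace ℝ (Fin 3)) | IsExposed ℝ P F ∧ F ≠ P ∧ (F ∩ T).Nonempty},
    convexHull ℝ (insert c F)

/-- The triangles `g` and `f` have a common vertex. -/
def Touch (g f : Fin 20) : Prop := ∃ k l, tri g k = tri f l

instance (g f : Fin 20) : Decidable (Touch g f) := by unfold Touch; infer_instance

section
variable {P : Set E3} {w : Fin 12 → E3}

lemma IsIco.convex (h : IsIco P w) : Convex ℝ P := by
  rw [h.hull_eq]; exact convex_convexHull ℝ _

lemma IsIco.compact (h : IsIco P w) : IsCompact P := by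
  rw [h.hull_eq]; exact Set.Finite.isCompact_convexHull (𝕜 := ℝ) (Set.finite_range w)

lemma IsIco.mem (h : IsIco P w) (i : Fin 12) : w i ∈ P := by
  rw [h.hull_eq]; exact subset_convexHull ℝ _ ⟨i, rfl⟩

lemma IsIco.face_ne (h : IsIco P w) (f : Fin 20) : face w f ≠ P := by
  intro hf
  obtain ⟨i, hi⟩ := CONE.exists_off f
  exact hi ((h.mem_face f i).1 (hf ▸ h.mem i))

/-- Midpoints of main diagonals are interior points. -/
lemma IsIco.mid_mem_interior (hF : StFRT) (h : IsIco P w) (hi : (interior P).Nonempty) (i : Fin 12)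
    {c : E3} (hc : w (i + 6) = (2 : ℝ) • c - w i) : c ∈ interior P := by
  have hseg : c ∈ openSegment ℝ (w i) (w (i + 6)) := by
    refine ⟨1 / 2, 1 / 2, by norm_num, by norm_num, by norm_num, ?_⟩
    rw [hc, ← smul_add, add_sub_cancel, smul_smul]
    norm_num
  have hcP : c ∈ P := h.convex.openSegment_subset (h.mem i) (h.mem (i + 6)) hseg
  by_contra hn
  have hfr : c ∈ frontier P := by
    rw [h.compact.isClosed.frontier_eq]
    exact ⟨hcP, hn⟩
  obtain ⟨F, hFe, hFne, hcF⟩ := (hF P h.convex h.compact hi c).1 hfr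
  obtain ⟨f, hf⟩ := h.cover F hFe hFne
  have h1 := hFe.isExtreme.left_mem_of_mem_openSegment (h.mem i) (h.mem (i + 6)) hcF hseg
  have h2 := hFe.isExtreme.right_mem_of_mem_openSegment (h.mem i) (h.mem (i + 6)) hcF hseg
  have h3 := (h.mem_face f i).1 (hf h1)
  have h4 := (h.mem_face f (i + 6)).1 (hf h2)
  have hdec : ∀ (i : Fin 12) (f : Fin 20), (∃ k, tri f k = i) → (∃ k, tri f k = i + 6) → False := by
    decide
  exact hdec i f h3 h4

/-- The cones over different triangles are almost disjoint. -/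
lemma IsIco.aedisjoint (hF : StFRT) (hN : StNUL) (hI : StINT) (hw : IsIco P w) {o : E3}
    (ho : o ∈ interior P) {f g : Fin 20} (hfg : f ≠ g) :
    AEDisjoint (volume : Measure E3)
      (convexHull ℝ ({o, w (tri f 0), w (tri f 1), w (tri f 2)} : Set E3))
      (convexHull ℝ ({o, w (tri g 0), w (tri g 1), w (tri g 2)} : Set E3)) := by
  have hfront : ∀ f, ∀ y ∈ face w f, y ∈ frontier P := by
    intro f y hy
    exact (hF P hw.convex hw.compact ⟨o, ho⟩ y).2 ⟨face w f, hw.face_exposed f, hw.face_ne f, hy⟩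
  obtain ⟨p, q, hpq⟩ := hI P w hw f g hfg
  refine measure_mono_null ?_ (hN.2 o p q)
  rintro x ⟨hx, hx'⟩
  obtain ⟨y, hy, hxy⟩ := (CONE.mem_cone _ _ _ _ _).1 hx
  obtain ⟨y', hy', hxy'⟩ := (CONE.mem_cone _ _ _ _ _).1 hx'
  by_cases hxo : x = o
  · refine subset_convexHull ℝ _ ?_
    rw [hxo]
    exact Set.mem_insert _ _
  · have hxy0 := hxy
    rw [segment_eq_image'] at hxy hxy'
    obtain ⟨s, ⟨hs0, hs1⟩, hs⟩ := hxy
    obtain ⟨t, ⟨ht0, ht1⟩, ht⟩ := hxy'
    simp only at hs ht
    have hs' : 0 < s := by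
      rcases hs0.lt_or_eq with h | h
      · exact h
      · exfalso
        apply hxo
        rw [← hs, ← h, zero_smul, add_zero]
    have ht' : 0 < t := by
      rcases ht0.lt_or_eq with h | h
      · exact h
      · exfalso
        apply hxo
        rw [← ht, ← h, zero_smul, add_zero]
    have hyy : y = y' := CONE.ray_unique hw.convex ho (hfront f y hy) (hfront g y' hy') hs' ht'
      (hs.trans ht.symm)
    have hy2 : y ∈ segment ℝ p q := hpq ⟨hy, hyy ▸ hy'⟩
    have hc : Convex ℝ (convexHull ℝ ({o, p, q} : Set E3)) := convex_convexHull ℝ _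
    refine hc.segment_subset (subset_convexHull ℝ _ (Set.mem_insert _ _)) ?_ hxy0
    refine hc.segment_subset (subset_convexHull ℝ _ ?_) (subset_convexHull ℝ _ ?_) hy2
    · simp
    · simp

/-- The part of `P` over the triangles touching `g`. -/
lemma IsIco.partOver_eq (hG : StGEN) (hw : IsIco P w) (c : E3) (g : Fin 20) :
    partOver P c (face w g) = ⋃ f ∈ Finset.univ.filter (Touch g),
      convexHull ℝ ({c, w (tri f 0), w (tri f 1), w (tri f 2)} : Set E3) := by
  have hPS : P = hull (Finset.univ.image w) := by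
    rw [hw.hull_eq]
    simp [hull]
  ext x
  simp only [partOver, Set.mem_setOf_eq, Set.mem_iUnion, Finset.mem_filter, Finset.mem_univ,
    true_and, exists_prop]
  constructor
  · rintro ⟨F, ⟨hFe, hFne, hFT⟩, hx⟩
    obtain ⟨f, hf⟩ := hw.cover F hFe hFne
    have hFc : Convex ℝ F := hFe.convex hw.convex
    have hne : F.Nonempty := hFT.mono Set.inter_subset_left
    refine ⟨f, ?_, ?_⟩
    · have h1 : (face w f ∩ face w g).Nonempty := hFT.mono (Set.inter_subset_inter_left _ hf)
      have h2 : IsExposed ℝ P (face w f ∩ face w g) :=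
        (hw.face_exposed f).inter (hw.face_exposed g)
      have hgen := hG (Finset.univ.image w) (face w f ∩ face w g) (hPS ▸ h2)
      rw [hgen, convexHull_nonempty_iff] at h1
      obtain ⟨z, hzF, hz⟩ := h1
      have hzext : z ∈ (hull (Finset.univ.image w)).extremePoints ℝ :=
        exposedPoints_subset_extremePoints (mem_exposedPoints_iff_exposed_singleton.2 hz)
      have hzS := extremePoints_convexHull_subset hzext
      simp only [Finset.coe_image, Finset.coe_univ, Set.image_univ, Set.mem_range] at hzS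
      obtain ⟨i, rfl⟩ := hzS
      obtain ⟨k, hk⟩ := (hw.mem_face f i).1 hzF.1
      obtain ⟨l, hl⟩ := (hw.mem_face g i).1 hzF.2
      exact ⟨l, k, hl.trans hk.symm⟩
    · rw [convexHull_insert hne, mem_convexJoin] at hx
      obtain ⟨c', hc', y, hy, hxy⟩ := hx
      rw [Set.mem_singleton_iff] at hc'
      subst hc'
      rw [hFc.convexHull_eq] at hy
      exact (CONE.mem_cone _ _ _ _ _).2 ⟨y, hf hy, hxy⟩
  · rintro ⟨f, ⟨k, l, hkl⟩, hx⟩
    obtain ⟨y, hy, hxy⟩ := (CONE.mem_cone _ _ _ _ _).1 hx
    refine ⟨face w f, ⟨hw.face_exposed f, hw.face_ne f, ⟨w (tri f l), ?_, ?_⟩⟩, ?_⟩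
    · exact (hw.mem_face f _).2 ⟨l, rfl⟩
    · exact (hw.mem_face g _).2 ⟨k, hkl⟩
    · refine (convex_convexHull ℝ _).segment_subset (subset_convexHull ℝ _ (Set.mem_insert _ _))
        (subset_convexHull ℝ _ (Set.mem_insert_of_mem _ hy)) hxy

/-- Volume of the part of `P` over the triangles touching `g`. -/
lemma IsIco.volume_partOver (hF : StFRT) (hN : StNUL) (hI : StINT) (hG : StGEN) (hw : IsIco P w)
    {c : E3} (hc : c ∈ interior P) (g : Fin 20) :
    volume (partOver P c (face w g)) = ∑ f with Touch g f,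
      volume (convexHull ℝ ({c, w (tri f 0), w (tri f 1), w (tri f 2)} : Set E3)) := by
  rw [hw.partOver_eq hG c g]
  apply measure_biUnion_finset₀
  · intro f _ g' _ hfg
    exact hw.aedisjoint hF hN hI hc hfg
  · intro f _
    exact (Set.Finite.isCompact_convexHull (𝕜 := ℝ)
      (Set.toFinite _)).measurableSet.nullMeasurableSet

end

end Pool.Agent.ICB
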