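import Pool.Agent.ICB.St
import Pool.Agent.IcoLocal.Sym

set_option autoImplicit false

open scoped RealInnerProductSpace

namespace Pool.Agent.ICB

/-- Exchange of the last two coordinates. -/
noncomputable def swp : E3 ≃ₗᵢ[ℝ] E3 :=
  LinearIsometryEquiv.piLpCongrLeft 2 ℝ ℝ (Equiv.swap (1 : Fin 3) 2)

lemma swp_regular (i : Fin 12) :
    swp (Pool.Agent.Results.MP_fa01f0_gt.CentrallySymmetric.regular i) = reg i := by
  have h : ∀ (x : E3) (j : Fin 3), swp x j = x (Equiv.swap (1 : Fin 3) 2 j) := by
    intro x j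
    simp [swp, LinearIsometryEquiv.piLpCongrLeft_apply]
  ext j
  rw [h]
  fin_cases i <;> fin_cases j <;>
    simp [reg, Pool.Agent.Results.MP_fa01f0_gt.CentrallySymmetric.regular, Equiv.swap_apply_def]

lemma dist_reg (i j : Fin 12) : dist (reg i) (reg j) =
    dist (Pool.Agent.Results.MP_fa01f0_gt.CentrallySymmetric.regular i)
      (Pool.Agent.Results.MP_fa01f0_gt.CentrallySymmetric.regular j) := by
  rw [← swp_regular, ← swp_regular, LinearIsometryEquiv.dist_map]

lemma triArea_swp (x y z : E3) : triArea (swp x) (swp y) (swp z) = triArea x y z := by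
  unfold triArea
  rw [← map_sub, ← map_sub, LinearIsometryEquiv.norm_map, LinearIsometryEquiv.norm_map,
    LinearIsometryEquiv.inner_map_map]

lemma area_eq (w : Fin 12 → E3) :
    area w = Pool.Agent.Results.MP_fa01f0_gt.CentrallySymmetric.area w := rfl

lemma vol_eq (w : Fin 12 → E3) :
    vol w = Pool.Agent.Results.MP_fa01f0_gt.CentrallySymmetric.vol w := rfl

lemma area_reg : area reg = Pool.Agent.Results.MP_fa01f0_gt.CentrallySymmetric.area
    Pool.Agent.Results.MP_fa01f0_gt.CentrallySymmetric.regular := by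
  rw [← area_eq]
  unfold area
  refine Finset.sum_congr rfl fun f _ => ?_
  rw [← swp_regular, ← swp_regular, ← swp_regular, triArea_swp]

lemma vol_reg : vol reg = - Pool.Agent.Results.MP_fa01f0_gt.CentrallySymmetric.vol
    Pool.Agent.Results.MP_fa01f0_gt.CentrallySymmetric.regular := by
  rw [← vol_eq]
  unfold vol
  rw [← Finset.sum_neg_distrib]
  refine Finset.sum_congr rfl fun f _ => ?_
  have h : ∀ (x : E3) (j : Fin 3), swp x j = x (Equiv.swap (1 : Fin 3) 2 j) := by
    intro x j
    simp [swp, LinearIsometryEquiv.piLpCongrLeft_apply]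
  simp only [← swp_regular, Matrix.det_fin_three, Matrix.of_apply, h]
  simp [Equiv.swap_apply_def]
  ring

lemma abs_vol_reg : |vol reg| = |Pool.Agent.Results.MP_fa01f0_gt.CentrallySymmetric.vol
    Pool.Agent.Results.MP_fa01f0_gt.CentrallySymmetric.regular| := by
  rw [vol_reg, abs_neg]

end Pool.Agent.ICB
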