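import Pool.Agent.ICB.Poly
import Pool.Agent.ICB.MIR

set_option autoImplicit false

open MeasureTheory Measure
open scoped RealInnerProductSpace

namespace Pool.Agent.ICB

open Pool.Agent.Results.MP_fa01f0_gt in
/-- Passage from a neighbourhood in the space of vertex maps to a neighbourhood in the set of the
polytopes of the icosahedral type. -/
theorem near_poly (hB : StBRG) (hA : StRA) (hS : StSET) (hV : StRV) (hL : StLAB)
    {P : Set E3} {φ : Faces P ≃o Faces icosahedron}
    {w₀ : Fin 12 → E3} (hw : ∀ i, Corr φ (w₀ i) (reg i))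
    (hn : ∃ ε > 0, ∀ w : Fin 12 → E3, (∀ i, dist (w i) (w₀ i) < ε) →
      CentrallySymmetric.area CentrallySymmetric.regular ^ 3 * CentrallySymmetric.vol w ^ 2 ≤
        CentrallySymmetric.area w ^ 3 * CentrallySymmetric.vol CentrallySymmetric.regular ^ 2 ∧
      (CentrallySymmetric.area CentrallySymmetric.regular ^ 3 * CentrallySymmetric.vol w ^ 2 =
        CentrallySymmetric.area w ^ 3 * CentrallySymmetric.vol CentrallySymmetric.regular ^ 2 →
        ∃ r > 0, ∀ i j, dist (w i) (w j) =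
          r * dist (CentrallySymmetric.regular i) (CentrallySymmetric.regular j))) :
    ∃ ε > 0, ∀ S : Finset E3, (interior (convexHull ℝ (S : Set E3))).Nonempty →
      ∀ ψ : Faces (convexHull ℝ (S : Set E3)) ≃o Faces icosahedron,
        (∀ v v' x, Corr φ v x → Corr ψ v' x → dist v v' < ε) →
        surf icosahedron ^ 3 * volm (convexHull ℝ (S : Set E3)) ^ 2 ≤
          surf (convexHull ℝ (S : Set E3)) ^ 3 * volm icosahedron ^ 2 ∧
        (surf icosahedron ^ 3 * volm (convexHull ℝ (S : Set E3)) ^ 2 =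
          surf (convexHull ℝ (S : Set E3)) ^ 3 * volm icosahedron ^ 2 →
          ∃ r > 0, ∀ v v' x x', Corr ψ v x → Corr ψ v' x' → dist v v' = r * dist x x') := by
  obtain ⟨ε, hε, h⟩ := hn
  refine ⟨ε, hε, ?_⟩
  intro S hSi ψ hψ
  obtain ⟨w, hI, hc, hu⟩ := exists_label hS hV hL S ψ
  obtain ⟨h1, h2, -⟩ := ineq_iff hB hA hI hSi
  have hd : ∀ i, dist (w i) (w₀ i) < ε := fun i => by
    rw [dist_comm]
    exact hψ _ _ _ (hw i) (hc i)
  obtain ⟨h3, h4⟩ := h w hd
  have e : ∀ v : Fin 12 → E3, vol v ^ 2 = CentrallySymmetric.vol v ^ 2 := fun v => rfl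
  have er : vol reg ^ 2 = CentrallySymmetric.vol CentrallySymmetric.regular ^ 2 := by
    rw [vol_reg, neg_sq]
  have eS : surf icosahedron = (μH[2] (frontier Ico)).toReal := by
    rw [surf, icosahedron_eq hS]
  have eV : volm icosahedron = (volume Ico).toReal := by
    rw [volm, icosahedron_eq hS]
  rw [eS, eV]
  unfold surf volm
  refine ⟨h1.2 ?_, fun h5 => ?_⟩
  · rw [area_reg, er, area_eq, vol_eq]
    exact h3
  · have h6 := h2.1 h5
    rw [area_reg, er, area_eq, vol_eq] at h6
    obtain ⟨r, hr, h7⟩ := h4 h6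
    refine ⟨r, hr, ?_⟩
    intro v v' x x' hv hv'
    obtain ⟨i, rfl, rfl⟩ := hu v x hv
    obtain ⟨j, rfl, rfl⟩ := hu v' x' hv'
    rw [h7 i j, dist_reg]

end Pool.Agent.ICB
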