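import Pool.Agent.ICB.FIN

/-!
# Convex polytopes of the icosahedral type: definitions used in the hand-ins of MP_fa01f0_gt
-/

set_option autoImplicit false

open MeasureTheory Measure
open scoped RealInnerProductSpace

namespace Pool.Agent.ICB

/-- The poset of the faces of a convex polytope `P` (exposed faces, with the empty set and `P`),
ordered by inclusion. -/
abbrev Faces (P : Set (EuclideanSpace ℝ (Fin 3))) : Type :=
  {F : Set (EuclideanSpace ℝ (Fin 3)) // IsExposed ℝ P F}

/-- The solid regular icosahedron with edge length two, as in the frozen statement. -/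
noncomputable def icosahedron : Set (EuclideanSpace ℝ (Fin 3)) :=
  convexHull ℝ {x : EuclideanSpace ℝ (Fin 3) | ∃ s t : ℝ, (s = 1 ∨ s = -1) ∧ (t = 1 ∨ t = -1) ∧
    (x = !₂[0, s, t * Real.goldenRatio] ∨ x = !₂[s, t * Real.goldenRatio, 0] ∨
      x = !₂[t * Real.goldenRatio, 0, s])}

/-- `v` is the vertex of `P` which corresponds to the vertex `x` of `Q` under the isomorphism `φ`
of the face posets: `φ` maps the face `{v}` to `{x}`. -/
def Corr {P Q : Set (EuclideanSpace ℝ (Fin 3))} (φ : Faces P ≃o Faces Q)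
    (v x : EuclideanSpace ℝ (Fin 3)) : Prop :=
  ∃ h : IsExposed ℝ P {v}, (φ ⟨{v}, h⟩ : Set (EuclideanSpace ℝ (Fin 3))) = {x}

/-- Surface area (two-dimensional Hausdorff measure of the boundary). -/
noncomputable def surf (P : Set (EuclideanSpace ℝ (Fin 3))) : ℝ :=
  (hausdorffMeasure 2 (frontier P)).toReal

/-- Volume. -/
noncomputable def volm (P : Set (EuclideanSpace ℝ (Fin 3))) : ℝ := (volume P).toReal

lemma icosahedron_eq (h : StSET) : icosahedron = Ico := by
  unfold icosahedron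
  rw [show ({x : EuclideanSpace ℝ (Fin 3) | ∃ s t : ℝ, (s = 1 ∨ s = -1) ∧ (t = 1 ∨ t = -1) ∧
    (x = !₂[0, s, t * Real.goldenRatio] ∨ x = !₂[s, t * Real.goldenRatio, 0] ∨
      x = !₂[t * Real.goldenRatio, 0, s])}) = (regSet : Set E3) from h]

lemma reg_add_six (i : Fin 12) : reg (i + 6) = -reg i := by
  fin_cases i <;> ext j <;> fin_cases j <;> simp [reg]

/-- Labelling, in the words of `Corr`. -/
theorem exists_label (hS : StSET) (hV : StRV) (hL : StLAB) (S : Finset E3)
    (φ : Faces (hull S) ≃o Faces icosahedron) :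
    ∃ w : Fin 12 → E3, IsIco (hull S) w ∧ (∀ i, Corr φ (w i) (reg i)) ∧
      ∀ v x, Corr φ v x → ∃ i, v = w i ∧ x = reg i := by
  have hI := icosahedron_eq hS
  revert φ
  rw [hI]
  intro φ
  obtain ⟨w, hw, h⟩ := hL S φ
  refine ⟨w, hw, h, ?_⟩
  rintro v x ⟨h1, h2⟩
  have h3 : IsExposed ℝ Ico {x} := by
    rw [← h2]
    exact (φ ⟨{v}, h1⟩).2
  obtain ⟨i, rfl⟩ := hV.2.2 x h3
  refine ⟨i, ?_, rfl⟩
  obtain ⟨h4, h5⟩ := h i
  have h6 : φ ⟨{v}, h1⟩ = φ ⟨{w i}, h4⟩ := Subtype.ext (h2.trans h5.symm)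
  have h7 := congrArg Subtype.val (φ.injective h6)
  exact Set.singleton_injective h7

end Pool.Agent.ICB
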