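import Pool.Agent.ICB.St

/-!
# The set of the frozen statement is the vertex set of the regular icosahedron
-/

set_option autoImplicit false

namespace Pool.Agent.ICB

theorem coe_regSet : (regSet : Set E3) = Set.range reg := by
  simp [regSet]

theorem t_SET : StSET := by
  unfold StSET
  rw [coe_regSet]
  apply Set.Subset.antisymm
  · rintro x ⟨s, t, hs, ht, hx⟩
    rcases hs with rfl | rfl <;> rcases ht with rfl | rfl <;> rcases hx with rfl | rfl | rfl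
    · exact ⟨0, by simp [reg]⟩
    · exact ⟨2, by simp [reg]⟩
    · exact ⟨4, by simp [reg]⟩
    · exact ⟨7, by simp [reg]⟩
    · exact ⟨9, by simp [reg]⟩
    · exact ⟨11, by simp [reg]⟩
    · exact ⟨1, by simp [reg]⟩
    · exact ⟨3, by simp [reg]⟩
    · exact ⟨5, by simp [reg]⟩
    · exact ⟨6, by simp [reg]⟩
    · exact ⟨8, by simp [reg]⟩
    · exact ⟨10, by simp [reg]⟩
  · rintro x ⟨i, rfl⟩
    fin_cases i
    · exact ⟨1, 1, Or.inl rfl, Or.inl rfl, Or.inl (by simp [reg])⟩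
    · exact ⟨-1, 1, Or.inr rfl, Or.inl rfl, Or.inl (by simp [reg])⟩
    · exact ⟨1, 1, Or.inl rfl, Or.inl rfl, Or.inr (Or.inl (by simp [reg]))⟩
    · exact ⟨-1, 1, Or.inr rfl, Or.inl rfl, Or.inr (Or.inl (by simp [reg]))⟩
    · exact ⟨1, 1, Or.inl rfl, Or.inl rfl, Or.inr (Or.inr (by simp [reg]))⟩
    · exact ⟨-1, 1, Or.inr rfl, Or.inl rfl, Or.inr (Or.inr (by simp [reg]))⟩
    · exact ⟨-1, -1, Or.inr rfl, Or.inr rfl, Or.inl (by simp [reg])⟩
    · exact ⟨1, -1, Or.inl rfl, Or.inr rfl, Or.inl (by simp [reg])⟩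
    · exact ⟨-1, -1, Or.inr rfl, Or.inr rfl, Or.inr (Or.inl (by simp [reg]))⟩
    · exact ⟨1, -1, Or.inl rfl, Or.inr rfl, Or.inr (Or.inl (by simp [reg]))⟩
    · exact ⟨-1, -1, Or.inr rfl, Or.inr rfl, Or.inr (Or.inr (by simp [reg]))⟩
    · exact ⟨1, -1, Or.inl rfl, Or.inr rfl, Or.inr (Or.inr (by simp [reg]))⟩

end Pool.Agent.ICB
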